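import Pool.Agent.H2.PG.Big

set_option autoImplicit false

/-! The Mahler measure of a polynomial with two terms. -/

namespace Pool.Agent.H2.PG

open MeasureTheory Pool.Agent.H261R2.CM

theorem int_binom (a b : ℂ) (ha : ‖a‖ = 1) (hb : ‖b‖ = 1) (n : ℕ) (hn : n ≠ 0) :
    ∫ w in Set.Icc (0 : ℝ) 1, Real.log ‖a + b * ez w ^ n‖ = 0 := by
  have hb0 : b ≠ 0 := by rintro rfl; simp at hb
  have h := K8.log_mahler (Polynomial.C b * Polynomial.X ^ n + Polynomial.C a)
  have h2 : (Polynomial.C b * Polynomial.X ^ n + Polynomial.C a : Polynomial ℂ).mahlerMeasure = 1 := by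
    rw [Polynomial.mahlerMeasure_eq_leadingCoeff_mul_prod_roots]
    have h3 : (Polynomial.C b * Polynomial.X ^ n + Polynomial.C a : Polynomial ℂ).leadingCoeff = b := by
      rw [Polynomial.leadingCoeff_add_of_degree_lt']
      · rw [Polynomial.leadingCoeff_C_mul_X_pow]
      · rw [Polynomial.degree_C_mul_X_pow n hb0]
        exact lt_of_le_of_lt Polynomial.degree_C_le (by exact_mod_cast Nat.pos_of_ne_zero hn)
    rw [h3, hb, one_mul]
    apply Multiset.prod_eq_one
    intro x hx
    obtain ⟨r, hr, rfl⟩ := Multiset.mem_map.1 hx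
    have h4 := Polynomial.isRoot_of_mem_roots hr
    rw [Polynomial.IsRoot.def] at h4
    simp only [Polynomial.eval_add, Polynomial.eval_mul, Polynomial.eval_C, Polynomial.eval_pow,
      Polynomial.eval_X] at h4
    have h5 : ‖b * r ^ n‖ = ‖a‖ := by
      rw [eq_neg_of_add_eq_zero_left h4, norm_neg]
    rw [norm_mul, hb, ha, one_mul, norm_pow] at h5
    have h6 : ‖r‖ = 1 := (pow_eq_one_iff_of_nonneg (norm_nonneg _) hn).1 h5
    rw [h6, max_self]
  rw [h2, Real.log_one] at h
  refine Eq.trans ?_ h.symm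
  refine integral_congr_ae (Filter.Eventually.of_forall fun w => ?_)
  simp only [Polynomial.eval_add, Polynomial.eval_mul, Polynomial.eval_C, Polynomial.eval_X,
    Polynomial.eval_pow]
  rw [add_comm]

theorem mM_binom_aux {k : ℕ} (a b : Fin k →₀ ℕ) (i : Fin k) (hi : a i < b i) (α β : ℤ)
    (hα : |α| = 1) (hβ : |β| = 1) :
    mM (MvPolynomial.monomial a α + MvPolynomial.monomial b β : MvPolynomial (Fin k) ℤ) = 1 := by
  classical
  have hab : a ≠ b := by rintro rfl; omega
  have hα' : ‖(α : ℂ)‖ = 1 := by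
    rw [Complex.norm_intCast]; exact_mod_cast hα
  have hβ' : ‖(β : ℂ)‖ = 1 := by
    rw [Complex.norm_intCast]; exact_mod_cast hβ
  have hα0 : α ≠ 0 := by rintro rfl; simp at hα
  set P : MvPolynomial (Fin k) ℤ := MvPolynomial.monomial a α + MvPolynomial.monomial b β with hP
  have hP0 : P ≠ 0 := by
    intro h
    have h1 : P.coeff a = α := by
      rw [hP, MvPolynomial.coeff_add, MvPolynomial.coeff_monomial, MvPolynomial.coeff_monomial,
        if_pos rfl, if_neg (Ne.symm hab), add_zero]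
    rw [h, MvPolynomial.coeff_zero] at h1
    exact hα0 h1.symm
  obtain ⟨k', rfl⟩ : ∃ k', k = k' + 1 := ⟨k - 1, by have := i.2; omega⟩
  have h1 := (K8.cube_slice i (fun x => Real.log ‖tv P x‖) (F_integrable hP0)).2
  have h2 : ∀ x : Fin (k' + 1) → ℝ, ∫ w in Set.Icc (0 : ℝ) 1,
      Real.log ‖tv P (Function.update x i w)‖ = 0 := by
    intro x
    have hz : ∀ (s : Fin (k' + 1) →₀ ℕ) (w : ℝ),
        ∏ j, J.zz (Function.update x i w) j ^ (s j) =
          (∏ j ∈ Finset.univ.erase i, J.zz x j ^ (s j)) * ez w ^ (s i) := by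
      intro s w
      rw [← Finset.mul_prod_erase Finset.univ _ (Finset.mem_univ i), mul_comm]
      congr 1
      · refine Finset.prod_congr rfl fun j hj => ?_
        unfold J.zz
        rw [Function.update_of_ne (Finset.ne_of_mem_erase hj)]
      · unfold J.zz ez
        rw [Function.update_self]
    have hn : ∀ s : Fin (k' + 1) →₀ ℕ, ‖∏ j ∈ Finset.univ.erase i, J.zz x j ^ (s j)‖ = 1 := by
      intro s
      rw [norm_prod]
      exact Finset.prod_eq_one fun j _ => by rw [norm_pow, J.norm_zz, one_pow]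
    refine Eq.trans ?_ (int_binom ((α : ℂ) * ∏ j ∈ Finset.univ.erase i, J.zz x j ^ (a j))
      ((β : ℂ) * ∏ j ∈ Finset.univ.erase i, J.zz x j ^ (b j)) (by rw [norm_mul, hα', hn, one_mul])
      (by rw [norm_mul, hβ', hn, one_mul]) (b i - a i) (by omega))
    refine integral_congr_ae (Filter.Eventually.of_forall fun w => ?_)
    have he : ‖ez w‖ = 1 := by
      have := J.norm_zz (k := 1) (fun _ => w) 0
      exact this
    have hb : ez w ^ (b i) = ez w ^ (a i) * ez w ^ (b i - a i) := by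
      rw [← pow_add]; congr 1; omega
    simp only [hP]
    rw [J.tv_add, J.tv_monomial, J.tv_monomial, hz, hz, hb]
    have : (α : ℂ) * ((∏ j ∈ Finset.univ.erase i, J.zz x j ^ (a j)) * ez w ^ (a i)) +
        (β : ℂ) * ((∏ j ∈ Finset.univ.erase i, J.zz x j ^ (b j)) *
          (ez w ^ (a i) * ez w ^ (b i - a i))) = ez w ^ (a i) *
        ((α : ℂ) * (∏ j ∈ Finset.univ.erase i, J.zz x j ^ (a j)) +
          (β : ℂ) * (∏ j ∈ Finset.univ.erase i, J.zz x j ^ (b j)) * ez w ^ (b i - a i)) := by ring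
    rw [this, norm_mul, norm_pow, he, one_pow, one_mul]
  have h3 : Real.log (mM P) = 0 := by
    rw [log_mM, ← h1]
    simp only [h2]
    exact integral_zero _ _
  exact Real.eq_one_of_pos_of_log_eq_zero (lt_of_lt_of_le one_pos (one_le_mM _ hP0)) h3

theorem mM_binom {k : ℕ} (a b : Fin k →₀ ℕ) (hab : a ≠ b) (α β : ℤ)
    (hα : |α| = 1) (hβ : |β| = 1) :
    mM (MvPolynomial.monomial a α + MvPolynomial.monomial b β : MvPolynomial (Fin k) ℤ) = 1 := by
  obtain ⟨i, hi⟩ := Finsupp.ne_iff.1 hab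
  rcases lt_or_gt_of_ne hi with h | h
  · exact mM_binom_aux a b i h α β hα hβ
  · rw [add_comm]
    exact mM_binom_aux b a i h β α hβ hα

theorem mM_monomial {k : ℕ} (a : Fin k →₀ ℕ) (α : ℤ) (hα : α ≠ 0) :
    mM (MvPolynomial.monomial a α : MvPolynomial (Fin k) ℤ) = (α.natAbs : ℝ) := by
  refine J.mM_of_norm_const (by exact_mod_cast Int.natAbs_pos.2 hα) fun t => ?_
  rw [J.tv_monomial, norm_mul, norm_prod]
  have : ∏ i, ‖J.zz t i ^ (a i)‖ = 1 :=
    Finset.prod_eq_one fun j _ => by rw [norm_pow, J.norm_zz, one_pow]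
  rw [this, mul_one, Complex.norm_intCast]
  simp [Nat.cast_natAbs]

end Pool.Agent.H2.PG
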