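import Pool.Agent.H2.PG.Defs

set_option autoImplicit false

/-!
# PG-CNT: the number of exponents is at most `2 ^ D`
-/

namespace Pool.Agent.H2.PG

open MvPolynomial

namespace CntA

theorem basis {m : ℕ} (Y : Fin m → Prop) : ∀ (n : ℕ) (W : Submodule ℝ (Fin m → ℝ)),
    Module.finrank ℝ W = n → ∃ B : Finset (Fin m), (∀ i ∈ B, Y i) ∧ B.card ≤ n ∧
      ∀ v ∈ W, (∀ i ∈ B, v i = 0) → ∀ i, Y i → v i = 0 := by
  classical
  intro n
  induction n using Nat.strong_induction_on with
  | _ n ih =>
    intro W hW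
    by_cases hall : ∀ v ∈ W, ∀ i, Y i → v i = 0
    · exact ⟨∅, by simp, by simp, fun v hv _ => hall v hv⟩
    · push Not at hall
      obtain ⟨w, hw, i, hi, hwi⟩ := hall
      set W' : Submodule ℝ (Fin m → ℝ) :=
        W ⊓ LinearMap.ker (LinearMap.proj i : (Fin m → ℝ) →ₗ[ℝ] ℝ) with hW'
      have hlt : W' < W := by
        refine lt_of_le_of_ne inf_le_left fun heq => ?_
        have h1 : w ∈ W' := heq ▸ hw
        have h2 := (Submodule.mem_inf.1 h1).2
        rw [LinearMap.mem_ker, LinearMap.proj_apply] at h2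
        exact hwi h2
      have hfin : Module.finrank ℝ W' < n := hW ▸ Submodule.finrank_lt_finrank_of_lt hlt
      obtain ⟨B, hB1, hB2, hB3⟩ := ih _ hfin W' rfl
      refine ⟨insert i B, ?_, ?_, ?_⟩
      · intro j hj
        rcases Finset.mem_insert.1 hj with h | h
        · rw [h]
          exact hi
        · exact hB1 j h
      · exact (Finset.card_insert_le i B).trans (by omega)
      · intro v hv hz
        refine hB3 v ?_ fun j hj => hz j (Finset.mem_insert_of_mem hj)
        refine Submodule.mem_inf.2 ⟨hv, ?_⟩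
        rw [LinearMap.mem_ker, LinearMap.proj_apply]
        exact hz i (Finset.mem_insert_self i B)

end CntA

theorem cnt {m : ℕ} (Y : Fin m → Prop) (P : MvPolynomial (Fin m) ℤ) (h : MA Y P) :
    P.support.card ≤ 2 ^ Module.finrank ℝ (vectorSpan ℝ
      ((fun s : Fin m →₀ ℕ => fun i => ((s i : ℕ) : ℝ)) '' (P.support : Set (Fin m →₀ ℕ)))) := by
  classical
  obtain ⟨h1, -, h3⟩ := h
  obtain ⟨B, hB1, hB2, hB3⟩ := CntA.basis Y _ (vectorSpan ℝ
      ((fun s : Fin m →₀ ℕ => fun i => ((s i : ℕ) : ℝ)) '' (P.support : Set (Fin m →₀ ℕ)))) rfl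
  have hcard : P.support.card ≤ B.powerset.card := by
    refine Finset.card_le_card_of_injOn (fun s => B.filter fun i => s i = 1) ?_ ?_
    · intro s _
      exact Finset.mem_coe.2 (Finset.mem_powerset.2 (Finset.filter_subset _ _))
    · intro s hs s' hs' heq
      have hs0 : s ∈ P.support := hs
      have hs0' : s' ∈ P.support := hs'
      have hB : ∀ i ∈ B, s i = s' i := by
        intro i hi
        have a1 := h1 s hs0 i (hB1 i hi)
        have a2 := h1 s' hs0' i (hB1 i hi)
        have a3 : s i = 1 ↔ s' i = 1 := by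
          have := Finset.ext_iff.1 heq i
          simp only [Finset.mem_filter] at this
          tauto
        omega
      refine h3 s hs0 s' hs0' fun i hi => ?_
      have hmem : (fun i => ((s i : ℕ) : ℝ)) - (fun i => ((s' i : ℕ) : ℝ)) ∈ vectorSpan ℝ
          ((fun s : Fin m →₀ ℕ => fun i => ((s i : ℕ) : ℝ)) ''
            (P.support : Set (Fin m →₀ ℕ))) :=
        vsub_mem_vectorSpan ℝ ⟨s, hs0, rfl⟩ ⟨s', hs0', rfl⟩
      have hz := hB3 _ hmem (fun j hj => by
        rw [Pi.sub_apply, hB j hj, sub_self]) i hi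
      rw [Pi.sub_apply, sub_eq_zero] at hz
      exact_mod_cast hz
  rw [Finset.card_powerset] at hcard
  exact hcard.trans (Nat.pow_le_pow_right (by norm_num) hB2)

end Pool.Agent.H2.PG
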