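import Pool.Agent.H2.PG.Defs

set_option autoImplicit false

/-!
PG-DAT: enumeration of the terms of a polynomial matrix.
-/

namespace Pool.Agent.H2.PG

open MvPolynomial

variable {k n E : ℕ}

theorem dat (A : Matrix (Fin n) (Fin n) (MvPolynomial (Fin k) ℤ)) :
    ∃ (E : ℕ) (d : Dat k n E), d.mat = A ∧
      ∀ (N : ℕ) (p q : Fin n × (Fin k → ZMod N)), (((d.cov N) p q : ℕ) : ℤ) = cover N A p q := by
  classical
  let T : Type := Σ (p : Fin n × Fin n), Σ (s : {s // s ∈ (A p.1 p.2).support}),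
    Fin ((A p.1 p.2).coeff s.1).natAbs
  let φ : T ≃ Fin (Fintype.card T) := Fintype.equivFin T
  have hsum : ∀ {M : Type} [AddCommMonoid M] (F : (Fin n × Fin n) → (Fin k →₀ ℕ) → M),
      ∑ e : Fin (Fintype.card T), F (φ.symm e).1 (φ.symm e).2.1.1 =
        ∑ p : Fin n × Fin n, ∑ s ∈ (A p.1 p.2).support, ((A p.1 p.2).coeff s).natAbs • F p s := by
    intro M _ F
    rw [Equiv.sum_comp φ.symm (fun τ : T => F τ.1 τ.2.1.1), Fintype.sum_sigma]
    refine Finset.sum_congr rfl fun p _ => ?_
    rw [Fintype.sum_sigma, ← Finset.sum_coe_sort (A p.1 p.2).support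
      (fun s => ((A p.1 p.2).coeff s).natAbs • F p s)]
    refine Finset.sum_congr rfl fun s _ => ?_
    show ∑ _y : Fin ((A p.1 p.2).coeff s.1).natAbs, F p s.1 = _
    rw [Finset.sum_const, Finset.card_univ, Fintype.card_fin]
  refine ⟨Fintype.card T,
    { r := fun e => (φ.symm e).1.1
      c := fun e => (φ.symm e).1.2
      ε := fun e => Int.sign ((A (φ.symm e).1.1 (φ.symm e).1.2).coeff (φ.symm e).2.1.1)
      hε := fun e => ?_
      s := fun e => (φ.symm e).2.1.1 }, ?_, ?_⟩
  · have h1 : (A (φ.symm e).1.1 (φ.symm e).1.2).coeff (φ.symm e).2.1.1 ≠ 0 :=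
      mem_support_iff.1 (φ.symm e).2.1.2
    rcases lt_or_gt_of_ne h1 with h | h
    · exact Or.inr (Int.sign_eq_neg_one_of_neg h)
    · exact Or.inl (Int.sign_eq_one_of_pos h)
  · ext1 i j
    unfold Dat.mat
    rw [Matrix.of_apply]
    rw [hsum (M := MvPolynomial (Fin k) ℤ) (fun p s => if p.1 = i ∧ p.2 = j then
      monomial s (Int.sign ((A p.1 p.2).coeff s)) else 0)]
    rw [Finset.sum_eq_single (i, j)]
    · simp only [and_self, if_true]
      conv_rhs => rw [← support_sum_monomial_coeff (A i j)]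
      refine Finset.sum_congr rfl fun s _ => ?_
      rw [← map_nsmul, nsmul_eq_mul, mul_comm, Int.sign_mul_natAbs]
    · intro p _ hp
      refine Finset.sum_eq_zero fun s _ => ?_
      rw [if_neg, smul_zero]
      rintro ⟨h1, h2⟩
      exact hp (Prod.ext h1 h2)
    · intro h
      exact absurd (Finset.mem_univ _) h
  · intro N p q
    unfold Dat.cov cover
    rw [Matrix.of_apply, Matrix.of_apply, Finset.card_filter]
    rw [hsum (fun pp s => if pp.1 = p.1 ∧ pp.2 = q.1 ∧
      ∀ l, ((s l : ℕ) : ZMod N) = q.2 l - p.2 l then (1 : ℕ) else 0)]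
    rw [Finset.sum_eq_single (p.1, q.1)]
    · push_cast
      refine Finset.sum_congr rfl fun s _ => ?_
      simp only [true_and]
      split_ifs
      · rw [smul_eq_mul, mul_one, Int.abs_eq_natAbs]
      · rw [smul_zero, Nat.cast_zero]
    · intro pp _ hp
      refine Finset.sum_eq_zero fun s _ => ?_
      rw [if_neg, smul_zero]
      rintro ⟨h1, h2, _⟩
      exact hp (Prod.ext h1 h2)
    · intro h
      exact absurd (Finset.mem_univ _) h

end Pool.Agent.H2.PG
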