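import Pool.Agent.H2.PG.Defs

set_option autoImplicit false

namespace Pool.Agent.H2.PG

open MvPolynomial

variable {k n E : ℕ}

namespace DET

theorem prod_mono {σ ι : Type} (T : Finset ι) (a : ι → σ →₀ ℕ) (b : ι → ℤ) :
    ∏ i ∈ T, (monomial (a i) (b i) : MvPolynomial σ ℤ) = monomial (∑ i ∈ T, a i) (∏ i ∈ T, b i) := by
  classical
  induction T using Finset.induction_on with
  | empty => simp
  | insert x T hx ih =>
    rw [Finset.prod_insert hx, Finset.sum_insert hx, Finset.prod_insert hx, ih, monomial_mul]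

/-- the exponent of the choice `f` -/
noncomputable def mm (d : Dat k n E) (f : Fin n → Fin E) : Fin (k + E) →₀ ℕ :=
  ∑ i, ext k E (d.s (f i)) (f i)

/-- the choice `f` belongs to the permutation `σ` -/
def G (d : Dat k n E) (σ : Equiv.Perm (Fin n)) (f : Fin n → Fin E) : Prop :=
  ∀ i, d.r (f i) = σ i ∧ d.c (f i) = i

open Classical in
theorem det_eq (d : Dat k n E) : d.gen.det = ∑ σ : Equiv.Perm (Fin n), ∑ f : Fin n → Fin E,
    if G d σ f then monomial (mm d f) (((Equiv.Perm.sign σ : ℤˣ) : ℤ) * ∏ i, d.ε (f i)) else 0 := by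
  rw [Matrix.det_apply']
  apply Finset.sum_congr rfl
  intro σ _
  have h1 : ∏ i, d.gen (σ i) i = ∑ f : Fin n → Fin E, ∏ i, (if d.r (f i) = σ i ∧ d.c (f i) = i then
      (monomial (ext k E (d.s (f i)) (f i)) (d.ε (f i)) : MvPolynomial (Fin (k + E)) ℤ) else 0) := by
    have h2 := Finset.prod_univ_sum (fun _ : Fin n => (Finset.univ : Finset (Fin E)))
      (fun i e => if d.r e = σ i ∧ d.c e = i then
        (monomial (ext k E (d.s e) e) (d.ε e) : MvPolynomial (Fin (k + E)) ℤ) else 0)
    rw [Fintype.piFinset_univ] at h2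
    rw [← h2]
    rfl
  rw [h1, Finset.mul_sum]
  apply Finset.sum_congr rfl
  intro f _
  by_cases hG : G d σ f
  · rw [if_pos hG]
    have h3 : ∏ i, (if d.r (f i) = σ i ∧ d.c (f i) = i then
        (monomial (ext k E (d.s (f i)) (f i)) (d.ε (f i)) : MvPolynomial (Fin (k + E)) ℤ) else 0) =
        ∏ i, monomial (ext k E (d.s (f i)) (f i)) (d.ε (f i)) := by
      apply Finset.prod_congr rfl
      intro i _
      rw [if_pos (hG i)]
    rw [h3, prod_mono]
    have h4 : ((((Equiv.Perm.sign σ : ℤˣ) : ℤ)) : MvPolynomial (Fin (k + E)) ℤ) =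
        C ((Equiv.Perm.sign σ : ℤˣ) : ℤ) := by
      simp
    rw [h4, C_mul_monomial]
    rfl
  · rw [if_neg hG]
    have h3 : ∃ i, ¬ (d.r (f i) = σ i ∧ d.c (f i) = i) := by
      unfold G at hG
      push Not at hG
      obtain ⟨i, hi⟩ := hG
      exact ⟨i, fun h => hi h.1 h.2⟩
    obtain ⟨i, hi⟩ := h3
    rw [Finset.prod_eq_zero (Finset.mem_univ i) (if_neg hi), mul_zero]

theorem ext_natAdd (s : Fin k →₀ ℕ) (e e' : Fin E) :
    ext k E s e (Fin.natAdd k e') = if e = e' then 1 else 0 := by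
  classical
  unfold ext
  rw [Finsupp.add_apply]
  have h1 : (Finsupp.mapDomain (Fin.castAdd E) s) (Fin.natAdd k e') = 0 := by
    apply Finsupp.mapDomain_of_notMem_range
    rintro ⟨a, ha⟩
    have h2 := congrArg (fun x : Fin (k + E) => (x : ℕ)) ha
    simp only [Fin.val_castAdd, Fin.val_natAdd] at h2
    omega
  rw [h1, zero_add, Finsupp.single_apply]
  by_cases h : e = e'
  · rw [if_pos h, if_pos (by rw [h])]
  · rw [if_neg h, if_neg (fun h' => h ((Fin.natAdd_inj k).1 h'))]

theorem mm_natAdd (d : Dat k n E) (f : Fin n → Fin E) (hf : ∀ i, d.c (f i) = i) (e : Fin E) :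
    mm d f (Fin.natAdd k e) = if f (d.c e) = e then 1 else 0 := by
  classical
  unfold mm
  rw [Finsupp.finsetSum_apply]
  have h1 : ∀ i, ext k E (d.s (f i)) (f i) (Fin.natAdd k e) =
      if i = d.c e then (if f (d.c e) = e then 1 else 0) else 0 := by
    intro i
    rw [ext_natAdd]
    by_cases h : i = d.c e
    · rw [if_pos h, h]
    · rw [if_neg h, if_neg]
      intro h'
      apply h
      rw [← h', hf i]
  simp_rw [h1]
  rw [Finset.sum_ite_eq' Finset.univ (d.c e), if_pos (Finset.mem_univ _)]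

theorem mm_inj (d : Dat k n E) (f f' : Fin n → Fin E) (hf : ∀ i, d.c (f i) = i)
    (hf' : ∀ i, d.c (f' i) = i)
    (h : ∀ i : Fin (k + E), k ≤ (i : ℕ) → mm d f i = mm d f' i) : f = f' := by
  funext i
  have h1 := h (Fin.natAdd k (f i)) (by simp)
  rw [mm_natAdd d f hf, mm_natAdd d f' hf', hf i, if_pos rfl] at h1
  by_contra h2
  rw [if_neg (fun h3 => h2 h3.symm)] at h1
  exact one_ne_zero h1

end DET

open DET

theorem det (d : Dat k n E) : MA (fun i : Fin (k + E) => k ≤ (i : ℕ)) d.gen.det := by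
  classical
  have hcoef : ∀ s, coeff s d.gen.det = ∑ σ : Equiv.Perm (Fin n), ∑ f : Fin n → Fin E,
      if G d σ f ∧ mm d f = s then ((Equiv.Perm.sign σ : ℤˣ) : ℤ) * ∏ i, d.ε (f i) else 0 := by
    intro s
    rw [det_eq, coeff_sum]
    apply Finset.sum_congr rfl
    intro σ _
    rw [coeff_sum]
    apply Finset.sum_congr rfl
    intro f _
    by_cases hG : G d σ f
    · rw [if_pos hG, coeff_monomial]
      by_cases hm : mm d f = s
      · rw [if_pos hm, if_pos ⟨hG, hm⟩]
      · rw [if_neg hm, if_neg (fun h => hm h.2)]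
    · rw [if_neg hG, if_neg (fun h => hG h.1), coeff_zero]
  have hex : ∀ s ∈ d.gen.det.support, ∃ (σ : Equiv.Perm (Fin n)) (f : Fin n → Fin E),
      G d σ f ∧ mm d f = s := by
    intro s hs
    rw [mem_support_iff, hcoef] at hs
    by_contra h
    push Not at h
    apply hs
    apply Finset.sum_eq_zero
    intro σ _
    apply Finset.sum_eq_zero
    intro f _
    rw [if_neg (fun h' => h σ f h'.1 h'.2)]
  refine ⟨?_, ?_, ?_⟩
  · intro s hs i hi
    obtain ⟨σ, f, hG, rfl⟩ := hex s hs
    obtain ⟨e, rfl⟩ : ∃ e : Fin E, i = Fin.natAdd k e := by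
      refine ⟨⟨(i : ℕ) - k, by have := i.2; omega⟩, ?_⟩
      apply Fin.ext
      simp only [Fin.val_natAdd]
      omega
    rw [mm_natAdd d f (fun i => (hG i).2)]
    split_ifs <;> norm_num
  · intro s hs
    obtain ⟨σ, f, hG, hm⟩ := hex s hs
    have h1 : coeff s d.gen.det = ((Equiv.Perm.sign σ : ℤˣ) : ℤ) * ∏ i, d.ε (f i) := by
      rw [hcoef, Finset.sum_eq_single σ, Finset.sum_eq_single f, if_pos ⟨hG, hm⟩]
      · intro f' _ hf'
        rw [if_neg]
        rintro ⟨hG', hm'⟩
        apply hf'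
        exact mm_inj d f' f (fun i => (hG' i).2) (fun i => (hG i).2) (fun i _ => by rw [hm, hm'])
      · intro h
        exact absurd (Finset.mem_univ _) h
      · intro σ' _ hσ'
        apply Finset.sum_eq_zero
        intro f' _
        rw [if_neg]
        rintro ⟨hG', hm'⟩
        apply hσ'
        have hf : f' = f :=
          mm_inj d f' f (fun i => (hG' i).2) (fun i => (hG i).2) (fun i _ => by rw [hm, hm'])
        subst hf
        apply Equiv.ext
        intro i
        rw [← (hG i).1, ← (hG' i).1]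
      · intro h
        exact absurd (Finset.mem_univ _) h
    rw [h1]
    have h2 : (∏ i, d.ε (f i)) = 1 ∨ (∏ i, d.ε (f i)) = -1 := by
      apply Finset.prod_induction _ (fun x : ℤ => x = 1 ∨ x = -1)
      · rintro a b (rfl | rfl) (rfl | rfl) <;> simp
      · left; rfl
      · intro i _
        exact d.hε _
    rcases Int.units_eq_one_or (Equiv.Perm.sign σ) with h3 | h3 <;> rw [h3] <;>
      rcases h2 with h2 | h2 <;> rw [h2] <;> simp
  · intro s hs s' hs' h
    obtain ⟨σ, f, hG, rfl⟩ := hex s hs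
    obtain ⟨σ', f', hG', rfl⟩ := hex s' hs'
    rw [mm_inj d f f' (fun i => (hG i).2) (fun i => (hG' i).2) h]

end Pool.Agent.H2.PG
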