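import Pool.Agent.H2.PG.Defs

set_option autoImplicit false

/-!
PG-GEN: specialisation and values of the generic determinant.
-/

namespace Pool.Agent.H2.PG

open MvPolynomial

variable {k n E : ℕ}

/-- products over the exponent `ext` -/
theorem ext_prod {R : Type} [CommMonoid R] (s : Fin k →₀ ℕ) (e : Fin E) (f : Fin (k + E) → R) :
    ((ext k E s e).prod fun i m => f i ^ m) =
      (s.prod fun l m => f (Fin.castAdd E l) ^ m) * f (Fin.natAdd k e) := by
  unfold ext
  rw [Finsupp.prod_add_index' (fun _ => pow_zero _) (fun _ _ _ => pow_add _ _ _),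
    Finsupp.prod_mapDomain_index (fun _ => pow_zero _) (fun _ _ _ => pow_add _ _ _),
    Finsupp.prod_single_index (h := fun i m => f i ^ m) (pow_zero _), pow_one]

theorem sp_monomial (s : Fin k →₀ ℕ) (e : Fin E) (a : ℤ) :
    sp k E (monomial (ext k E s e) a) = monomial s a := by
  unfold sp
  rw [aeval_monomial, ext_prod]
  simp only [Fin.addCases_left, Fin.addCases_right, mul_one]
  rw [monomial_eq, MvPolynomial.algebraMap_eq]

theorem gen_sp (d : Dat k n E) : sp k E d.gen.det = d.mat.det := by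
  rw [AlgHom.map_det]
  congr 1
  ext1 i j
  show sp k E (d.gen i j) = d.mat i j
  unfold Dat.gen Dat.mat
  rw [Matrix.of_apply, Matrix.of_apply, map_sum]
  refine Finset.sum_congr rfl fun e _ => ?_
  rw [apply_ite (sp k E), sp_monomial, map_zero]

/-- products of exponentials -/
theorem prod_exp (s : Fin k →₀ ℕ) (x : Fin k → ℝ) :
    (s.prod fun l m => Complex.exp (2 * (Real.pi : ℂ) * Complex.I * ((x l : ℝ) : ℂ)) ^ m) =
      Complex.exp (2 * (Real.pi : ℂ) * Complex.I * ∑ l, ((s l : ℕ) : ℂ) * ((x l : ℝ) : ℂ)) := by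
  rw [Finsupp.prod_fintype _ _ (fun _ => pow_zero _), Finset.mul_sum, Complex.exp_sum]
  refine Finset.prod_congr rfl fun l _ => ?_
  rw [← Complex.exp_nat_mul]
  congr 1
  ring

theorem gen_val (d : Dat k n E) (x : Fin (k + E) → ℝ) :
    MvPolynomial.eval (fun j : Fin (k + E) =>
      Complex.exp (2 * (Real.pi : ℂ) * Complex.I * ((x j : ℝ) : ℂ)))
      (MvPolynomial.map (Int.castRingHom ℂ) d.gen.det) =
    (Matrix.of fun i j => ∑ e, if d.r e = i ∧ d.c e = j then
      (d.ε e : ℂ) * Complex.exp (2 * (Real.pi : ℂ) * Complex.I * ((x (Fin.natAdd k e) : ℝ) : ℂ)) *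
        Complex.exp (2 * (Real.pi : ℂ) * Complex.I *
        ∑ l, ((d.s e l : ℕ) : ℂ) * ((x (Fin.castAdd E l) : ℝ) : ℂ)) else 0 :
        Matrix (Fin n) (Fin n) ℂ).det := by
  rw [RingHom.map_det, RingHom.map_det]
  congr 1
  ext1 i j
  show MvPolynomial.eval _ (MvPolynomial.map (Int.castRingHom ℂ) (d.gen i j)) = _
  unfold Dat.gen
  rw [Matrix.of_apply, Matrix.of_apply, map_sum, map_sum]
  refine Finset.sum_congr rfl fun e _ => ?_
  by_cases h : d.r e = i ∧ d.c e = j
  · rw [if_pos h, if_pos h, map_monomial, eval_monomial, ext_prod,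
      prod_exp (d.s e) (fun l => x (Fin.castAdd E l))]
    simp only [eq_intCast]
    ring
  · rw [if_neg h, if_neg h, map_zero, map_zero]

theorem mat_val (d : Dat k n E) (x : Fin k → ℝ) :
    MvPolynomial.eval (fun j : Fin k =>
      Complex.exp (2 * (Real.pi : ℂ) * Complex.I * ((x j : ℝ) : ℂ)))
      (MvPolynomial.map (Int.castRingHom ℂ) d.mat.det) =
    (Matrix.of fun i j => ∑ e, if d.r e = i ∧ d.c e = j then
      (d.ε e : ℂ) * (1 : ℂ) * Complex.exp (2 * (Real.pi : ℂ) * Complex.I *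
        ∑ l, ((d.s e l : ℕ) : ℂ) * ((x l : ℝ) : ℂ)) else 0 :
        Matrix (Fin n) (Fin n) ℂ).det := by
  rw [RingHom.map_det, RingHom.map_det]
  congr 1
  ext1 i j
  show MvPolynomial.eval _ (MvPolynomial.map (Int.castRingHom ℂ) (d.mat i j)) = _
  unfold Dat.mat
  rw [Matrix.of_apply, Matrix.of_apply, map_sum, map_sum]
  refine Finset.sum_congr rfl fun e _ => ?_
  by_cases h : d.r e = i ∧ d.c e = j
  · rw [if_pos h, if_pos h, map_monomial, eval_monomial, prod_exp (d.s e) x]
    simp only [eq_intCast, mul_one]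
  · rw [if_neg h, if_neg h, map_zero, map_zero]

end Pool.Agent.H2.PG
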