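import Pool.Agent.H2.PG.RIEMa
import Pool.Agent.H2.PG.SHIFT

set_option autoImplicit false

namespace Pool.Agent.H2.PG

variable {k : ℕ}

/-- uniform convergence of the Riemann sums of a continuous periodic function -/
theorem riem (f : (Fin k → ℝ) → ℝ) (hc : Continuous f)
    (hf : ∀ (x : Fin k → ℝ) (i : Fin k), f (Function.update x i (x i + 1)) = f x)
    (ε : ℝ) (hε : 0 < ε) :
    ∃ N₀ : ℕ, ∀ N : ℕ, N₀ ≤ N → 1 ≤ N → ∀ t : Fin k → ℝ,
      |∑ u : Fin k → Fin N, f (fun l => t l + ((u l : ℕ) : ℝ) / (N : ℝ)) -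
        (N : ℝ) ^ k * ∫ x in Set.Icc (0 : Fin k → ℝ) 1, f x| ≤ ε * (N : ℝ) ^ k :=
  RiemA.riem_of_shift (fun f hf v => shift f hf v) f hc hf ε hε

end Pool.Agent.H2.PG
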