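import Pool.Agent.H2.PG.Perm
import Pool.Agent.H2.PG.DAT
import Pool.Agent.H2.PG.GEN
import Pool.Agent.H2.PG.DET
import Pool.Agent.H2.PG.RIEM

set_option autoImplicit false

/-! Determinants of bounded permanental growth. -/

namespace Pool.Agent.H2.PG

open MeasureTheory Pool.Agent.H261R2.CM LEN

variable {k n E : ℕ}

theorem perm_cast (d : Dat k n E) (N : ℕ) [NeZero N]
    (A : Matrix (Fin n) (Fin n) (MvPolynomial (Fin k) ℤ))
    (h : ∀ p q : Fin n × (Fin k → ZMod N), (((d.cov N) p q : ℕ) : ℤ) = cover N A p q) :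
    (((d.cov N).permanent : ℕ) : ℝ) = (((cover N A).permanent : ℤ) : ℝ) := by
  have h1 : (((d.cov N).permanent : ℕ) : ℤ) = (cover N A).permanent := by
    unfold Matrix.permanent
    push_cast
    simp only [h]
  rw [← h1]
  push_cast
  rfl

theorem card_ind (k N : ℕ) : Fintype.card (Fin k → Fin N) = N ^ k := by simp

/-- the Mahler measure of the generic determinant -/
theorem gen_pow (d : Dat k n E) (N : ℕ) [NeZero N] (h0 : d.gen.det ≠ 0) :
    mM d.gen.det ^ (N ^ k) ≤ (((d.cov N).permanent : ℕ) : ℝ) := by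
  rw [← card_ind k N]
  refine pow_le h0 (fun (u : Fin k → Fin N) (j : Fin (k + E)) =>
    Fin.addCases (fun l => ((u l : ℕ) : ℝ) / (N : ℝ)) (fun _ => 0) j) _ fun x => ?_
  have h1 := fou d N (fun e => Complex.exp (2 * (Real.pi : ℂ) * Complex.I *
    ((x (Fin.natAdd k e) : ℝ) : ℂ))) (fun e => by
      have := J.norm_zz x (Fin.natAdd k e)
      exact this.le) (fun l => x (Fin.castAdd E l))
  refine le_trans (le_of_eq ?_) h1
  refine Finset.prod_congr rfl fun u _ => ?_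
  unfold tv
  rw [gen_val]
  simp only [Pi.add_apply, Fin.addCases_left, Fin.addCases_right, add_zero]

/-- the Mahler measure of the determinant -/
theorem mat_pow (d : Dat k n E) (N : ℕ) [NeZero N] (h0 : d.mat.det ≠ 0) :
    mM d.mat.det ^ (N ^ k) ≤ (((d.cov N).permanent : ℕ) : ℝ) := by
  rw [← card_ind k N]
  refine pow_le h0 (fun (u : Fin k → Fin N) (l : Fin k) => ((u l : ℕ) : ℝ) / (N : ℝ)) _ fun x => ?_
  have h1 := fou d N (fun _ => 1) (fun e => by simp) x
  refine le_trans (le_of_eq ?_) h1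
  refine Finset.prod_congr rfl fun u _ => ?_
  unfold tv
  rw [mat_val]
  simp only [Pi.add_apply]

theorem det_pow (A : Matrix (Fin n) (Fin n) (MvPolynomial (Fin k) ℤ)) (N : ℕ) [NeZero N]
    (h0 : A.det ≠ 0) : mM A.det ^ (N ^ k) ≤ (((cover N A).permanent : ℤ) : ℝ) := by
  obtain ⟨E, d, rfl, hd⟩ := dat A
  rw [← perm_cast d N _ (hd N)]
  exact mat_pow d N h0

theorem struct (B : ℝ) : ∃ ℓ : ℕ, ∀ (k n : ℕ) (A : Matrix (Fin n) (Fin n) (MvPolynomial (Fin k) ℤ))
    (N : ℕ) [NeZero N], A.det ≠ 0 → (((cover N A).permanent : ℤ) : ℝ) ≤ B ^ (N ^ k) →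
      ∃ (Q : MvPolynomial (Fin k) ℤ) (bs : Multiset (MvPolynomial (Fin k) ℤ)),
        (∀ P ∈ bs, IsBinom P) ∧ A.det = Q * bs.prod ∧ len Q ≤ ℓ := by
  obtain ⟨ℓ, hℓ⟩ := main (max |B| 1) (le_max_right _ _)
  refine ⟨ℓ, fun k n A N _ h0 hp => ?_⟩
  obtain ⟨E, d, rfl, hd⟩ := dat A
  have hN : N ^ k ≠ 0 := pow_ne_zero _ (NeZero.ne N)
  have hle : (((d.cov N).permanent : ℕ) : ℝ) ≤ (max |B| 1) ^ (N ^ k) := by
    rw [perm_cast d N _ (hd N)]
    refine hp.trans ?_
    refine (le_abs_self _).trans ?_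
    rw [abs_pow]
    exact pow_le_pow_left₀ (abs_nonneg _) (le_max_left _ _) _
  have hsp : sp k E d.gen.det = d.mat.det := gen_sp d
  have hg0 : d.gen.det ≠ 0 := by
    intro h
    rw [h, map_zero] at hsp
    exact h0 hsp.symm
  have hB0 : 0 ≤ max |B| 1 := le_trans (abs_nonneg _) (le_max_left _ _)
  have h1 : mM d.gen.det ≤ max |B| 1 :=
    (pow_le_pow_iff_left₀ (by have := one_le_mM _ hg0; linarith) hB0 hN).1
      ((gen_pow d N hg0).trans hle)
  have h2 : mM d.mat.det ≤ max |B| 1 :=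
    (pow_le_pow_iff_left₀ (by have := one_le_mM _ h0; linarith) hB0 hN).1
      ((mat_pow d N h0).trans hle)
  have h3 := hℓ k E d.gen.det (det d) (by rw [hsp]; exact h0) h1 (by rw [hsp]; exact h2)
  rw [hsp] at h3
  exact h3

end Pool.Agent.H2.PG
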