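import Pool.Agent.H2.PG.Defs

/-!
# Project PG: `fou`, the torus covers of a matrix of Laurent polynomials
-/

set_option autoImplicit false

namespace Pool.Agent.H2.PG

open MvPolynomial

variable {k n E : ℕ}

namespace FouAux

/-- Characters of `(ZMod N)^k`. -/
noncomputable def chi (N : ℕ) [NeZero N] (u : Fin k → Fin N) (x : Fin k → ZMod N) : ℂ :=
  ∏ l, ZMod.stdAddChar (x l * (((u l : ℕ) : ZMod N)))

lemma chi_add (N : ℕ) [NeZero N] (u : Fin k → Fin N) (x z : Fin k → ZMod N) :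
    chi N u (x + z) = chi N u x * chi N u z := by
  simp only [chi, Pi.add_apply, add_mul, AddChar.map_add_eq_mul, Finset.prod_mul_distrib]

lemma chi_nat (N : ℕ) [NeZero N] (u : Fin k → Fin N) (s : Fin k → ℕ) :
    chi N u (fun l => ((s l : ℕ) : ZMod N)) =
      Complex.exp (∑ l, 2 * (Real.pi : ℂ) * Complex.I * ((s l : ℕ) : ℂ) * (((u l : ℕ) : ℂ) / (N : ℂ))) := by
  rw [Complex.exp_sum]
  refine Finset.prod_congr rfl fun l _ => ?_
  have := ZMod.stdAddChar_coe (N := N) ((s l * (u l : ℕ) : ℕ) : ℤ)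
  have h2 : (((s l * (u l : ℕ) : ℕ) : ℤ) : ZMod N) = ((s l : ℕ) : ZMod N) * (((u l : ℕ) : ZMod N)) := by
    push_cast; ring
  rw [h2] at this
  rw [this]
  congr 1
  push_cast
  ring

lemma orth (N : ℕ) [NeZero N] (u u' : Fin k → Fin N) :
    ∑ x : Fin k → ZMod N, chi N u (-x) * chi N u' x = if u = u' then (N : ℂ) ^ k else 0 := by
  classical
  have h1 : ∀ x : Fin k → ZMod N, chi N u (-x) * chi N u' x =
      ∏ l, ZMod.stdAddChar (x l * ((((u' l : ℕ) : ZMod N)) - (((u l : ℕ) : ZMod N)))) := by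
    intro x
    rw [chi, chi, ← Finset.prod_mul_distrib]
    refine Finset.prod_congr rfl fun l _ => ?_
    rw [← AddChar.map_add_eq_mul]
    congr 1
    simp only [Pi.neg_apply]
    ring
  simp only [h1]
  rw [← Fintype.prod_sum (fun l (a : ZMod N) =>
    (ZMod.stdAddChar (a * ((((u' l : ℕ) : ZMod N)) - (((u l : ℕ) : ZMod N)))) : ℂ))]
  have h2 : ∀ l, ∑ a : ZMod N, (ZMod.stdAddChar (a * ((((u' l : ℕ) : ZMod N)) -
      (((u l : ℕ) : ZMod N)))) : ℂ) = if u l = u' l then (N : ℂ) else 0 := by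
    intro l
    rw [AddChar.sum_mulShift _ (ZMod.isPrimitive_stdAddChar N)]
    by_cases h : u l = u' l
    · simp [h, ZMod.card]
    · rw [if_neg, if_neg h]
      · simp
      · intro h0
        apply h
        have h3 : (((u' l : ℕ) : ZMod N)) = (((u l : ℕ) : ZMod N)) := sub_eq_zero.1 h0
        rw [ZMod.natCast_eq_natCast_iff', Nat.mod_eq_of_lt (u' l).2, Nat.mod_eq_of_lt (u l).2] at h3
        exact Fin.ext h3.symm
  rw [Finset.prod_congr rfl fun l _ => h2 l]
  by_cases h : u = u'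
  · subst h; simp
  · rw [if_neg h]
    obtain ⟨l, hl⟩ := Function.ne_iff.1 h
    exact Finset.prod_eq_zero (Finset.mem_univ l) (if_neg hl)

noncomputable def UU (n k N : ℕ) [NeZero N] :
    Matrix (Fin n × (Fin k → ZMod N)) (Fin n × (Fin k → Fin N)) ℂ :=
  Matrix.of fun p q => if p.1 = q.1 then chi N q.2 p.2 else 0

noncomputable def VV (n k N : ℕ) [NeZero N] :
    Matrix (Fin n × (Fin k → Fin N)) (Fin n × (Fin k → ZMod N)) ℂ :=
  Matrix.of fun p q => if p.1 = q.1 then chi N p.2 (-q.2) / (N : ℂ) ^ k else 0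

lemma VU (N : ℕ) [NeZero N] : VV n k N * UU n k N = 1 := by
  classical
  have hN : (N : ℂ) ^ k ≠ 0 := pow_ne_zero _ (by exact_mod_cast NeZero.ne N)
  ext ⟨j, u⟩ ⟨j', u'⟩
  rw [Matrix.mul_apply, Fintype.sum_prod_type]
  simp only [VV, UU, Matrix.of_apply]
  rw [Finset.sum_eq_single j]
  · simp only [if_true]
    by_cases h : j = j'
    · subst h
      simp only [if_true]
      have : ∑ x : Fin k → ZMod N, chi N u (-x) / (N : ℂ) ^ k * chi N u' x =
          (∑ x : Fin k → ZMod N, chi N u (-x) * chi N u' x) / (N : ℂ) ^ k := by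
        rw [Finset.sum_div]
        exact Finset.sum_congr rfl fun x _ => by ring
      rw [this, orth, Matrix.one_apply]
      by_cases h2 : u = u'
      · subst h2
        simp [hN]
      · simp [h2]
    · simp only [h, if_false, mul_zero, Finset.sum_const_zero]
      rw [Matrix.one_apply_ne]
      intro h2
      exact h (Prod.ext_iff.1 h2).1
  · intro b _ hb
    refine Finset.sum_eq_zero fun x _ => ?_
    rw [if_neg (Ne.symm hb), zero_mul]
  · intro h; exact absurd (Finset.mem_univ j) h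

lemma UV (N : ℕ) [NeZero N] : UU n k N * VV n k N = 1 := by
  classical
  refine (Matrix.mul_eq_one_comm_of_card_eq _ _ _ ?_).1 (VU (n := n) (k := k) N)
  simp [ZMod.card]

/-- The coefficient of a term. -/
noncomputable def cf (d : Dat k n E) (y : Fin E → ℂ) (t : Fin k → ℝ) (e : Fin E) : ℂ :=
  (d.ε e : ℂ) * y e * Complex.exp (2 * (Real.pi : ℂ) * Complex.I *
    ∑ l, ((d.s e l : ℕ) : ℂ) * ((t l : ℝ) : ℂ))

lemma cf_le (d : Dat k n E) (y : Fin E → ℂ) (hy : ∀ e, ‖y e‖ ≤ 1) (t : Fin k → ℝ) (e : Fin E) :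
    ‖cf d y t e‖ ≤ 1 := by
  unfold cf
  rw [norm_mul, norm_mul]
  have h1 : ‖(d.ε e : ℂ)‖ = 1 := by
    rcases d.hε e with h | h <;> simp [h]
  have h2 : ‖Complex.exp (2 * (Real.pi : ℂ) * Complex.I *
      ∑ l, ((d.s e l : ℕ) : ℂ) * ((t l : ℝ) : ℂ))‖ = 1 := by
    have : 2 * (Real.pi : ℂ) * Complex.I * ∑ l, ((d.s e l : ℕ) : ℂ) * ((t l : ℝ) : ℂ) =
        ((2 * Real.pi * ∑ l, ((d.s e l : ℕ) : ℝ) * t l : ℝ) : ℂ) * Complex.I := by
      push_cast; ring
    rw [this, Complex.norm_exp_ofReal_mul_I]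
  rw [h1, h2, one_mul, mul_one]
  exact hy e

noncomputable def BB (d : Dat k n E) (N : ℕ) (y : Fin E → ℂ) (t : Fin k → ℝ) :
    Matrix (Fin n × (Fin k → ZMod N)) (Fin n × (Fin k → ZMod N)) ℂ :=
  Matrix.of fun p q => ∑ e ∈ Finset.univ.filter (fun e : Fin E => d.r e = p.1 ∧ d.c e = q.1 ∧
    ∀ l, ((d.s e l : ℕ) : ZMod N) = q.2 l - p.2 l), cf d y t e

lemma BB_le (d : Dat k n E) (N : ℕ) (y : Fin E → ℂ) (hy : ∀ e, ‖y e‖ ≤ 1) (t : Fin k → ℝ)
    (p q : Fin n × (Fin k → ZMod N)) : ‖BB d N y t p q‖ ≤ ((d.cov N p q : ℕ) : ℝ) := by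
  unfold BB Dat.cov
  simp only [Matrix.of_apply]
  refine (norm_sum_le _ _).trans ?_
  refine (Finset.sum_le_sum fun e _ => cf_le d y hy t e).trans ?_
  simp

/-- The matrix of the statement. -/
noncomputable def MM (d : Dat k n E) (N : ℕ) (y : Fin E → ℂ) (t : Fin k → ℝ) (u : Fin k → Fin N) :
    Matrix (Fin n) (Fin n) ℂ :=
  Matrix.of fun i j => ∑ e, if d.r e = i ∧ d.c e = j then
      (d.ε e : ℂ) * y e * Complex.exp (2 * (Real.pi : ℂ) * Complex.I *
        ∑ l, ((d.s e l : ℕ) : ℂ) * ((t l + ((u l : ℕ) : ℝ) / (N : ℝ) : ℝ) : ℂ)) else 0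

lemma MM_term (d : Dat k n E) (N : ℕ) [NeZero N] (y : Fin E → ℂ) (t : Fin k → ℝ)
    (u : Fin k → Fin N) (e : Fin E) :
    (d.ε e : ℂ) * y e * Complex.exp (2 * (Real.pi : ℂ) * Complex.I *
        ∑ l, ((d.s e l : ℕ) : ℂ) * ((t l + ((u l : ℕ) : ℝ) / (N : ℝ) : ℝ) : ℂ)) =
      cf d y t e * chi N u (fun l => ((d.s e l : ℕ) : ZMod N)) := by
  rw [chi_nat, cf, mul_assoc ((d.ε e : ℂ) * y e), ← Complex.exp_add]
  congr 2
  rw [Finset.mul_sum, Finset.mul_sum, ← Finset.sum_add_distrib]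
  refine Finset.sum_congr rfl fun l _ => ?_
  push_cast
  ring

lemma BU (d : Dat k n E) (N : ℕ) [NeZero N] (y : Fin E → ℂ) (t : Fin k → ℝ) :
    BB d N y t * UU n k N = UU n k N * Matrix.blockDiagonal (MM d N y t) := by
  classical
  ext ⟨i, x⟩ ⟨j, u⟩
  rw [Matrix.mul_apply, Matrix.mul_apply, Fintype.sum_prod_type, Fintype.sum_prod_type]
  have h1 : ∑ a : Fin n, ∑ b : Fin k → Fin N, UU n k N (i, x) (a, b) *
      Matrix.blockDiagonal (MM d N y t) (a, b) (j, u) = chi N u x * MM d N y t u i j := by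
    rw [Finset.sum_eq_single i]
    · rw [Finset.sum_eq_single u]
      · simp [UU, Matrix.blockDiagonal_apply]
      · intro b _ hb
        rw [Matrix.blockDiagonal_apply, if_neg hb, mul_zero]
      · intro h; exact absurd (Finset.mem_univ u) h
    · intro b _ hb
      refine Finset.sum_eq_zero fun c _ => ?_
      simp only [UU, Matrix.of_apply]
      rw [if_neg (Ne.symm hb), zero_mul]
    · intro h; exact absurd (Finset.mem_univ i) h
  have h2 : ∑ a : Fin n, ∑ b : Fin k → ZMod N, BB d N y t (i, x) (a, b) * UU n k N (a, b) (j, u) =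
      ∑ b : Fin k → ZMod N, BB d N y t (i, x) (j, b) * chi N u b := by
    rw [Finset.sum_eq_single j]
    · simp [UU]
    · intro b _ hb
      refine Finset.sum_eq_zero fun c _ => ?_
      simp only [UU, Matrix.of_apply]
      rw [if_neg hb, mul_zero]
    · intro h; exact absurd (Finset.mem_univ j) h
  rw [h1, h2]
  unfold BB MM
  simp only [Matrix.of_apply, Finset.sum_filter, Finset.sum_mul]
  rw [Finset.mul_sum, Finset.sum_comm]
  refine Finset.sum_congr rfl fun e _ => ?_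
  rw [MM_term]
  by_cases hrc : d.r e = i ∧ d.c e = j
  · rw [if_pos hrc]
    rw [Finset.sum_eq_single (x + fun l => ((d.s e l : ℕ) : ZMod N))]
    · rw [if_pos, chi_add]
      · ring
      · refine ⟨hrc.1, hrc.2, fun l => ?_⟩
        simp
    · intro b _ hb
      rw [if_neg, zero_mul]
      rintro ⟨-, -, h⟩
      apply hb
      funext l
      simp only [Pi.add_apply]
      rw [h l]; ring
    · intro h; exact absurd (Finset.mem_univ _) h
  · rw [if_neg hrc, mul_zero]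
    refine Finset.sum_eq_zero fun b _ => ?_
    rw [if_neg, zero_mul]
    rintro ⟨h1, h2, -⟩
    exact hrc ⟨h1, h2⟩

lemma det_BB (d : Dat k n E) (N : ℕ) [NeZero N] (y : Fin E → ℂ) (t : Fin k → ℝ) :
    (BB d N y t).det = ∏ u : Fin k → Fin N, (MM d N y t u).det := by
  classical
  have h1 : BB d N y t = UU n k N * Matrix.blockDiagonal (MM d N y t) * VV n k N := by
    rw [← BU, Matrix.mul_assoc, UV, Matrix.mul_one]
  rw [h1, Matrix.det_conj_of_mul_eq_one (UV N) (VU N), Matrix.det_blockDiagonal]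

lemma norm_det_le {ι : Type} [Fintype ι] [DecidableEq ι] (M : Matrix ι ι ℂ) (C : Matrix ι ι ℕ)
    (h : ∀ p q, ‖M p q‖ ≤ ((C p q : ℕ) : ℝ)) : ‖M.det‖ ≤ ((C.permanent : ℕ) : ℝ) := by
  rw [Matrix.det_apply, Matrix.permanent]
  push_cast
  refine (norm_sum_le _ _).trans (Finset.sum_le_sum fun σ _ => ?_)
  have : ‖Equiv.Perm.sign σ • ∏ i, M (σ i) i‖ = ‖∏ i, M (σ i) i‖ := by
    rcases Int.units_eq_one_or (Equiv.Perm.sign σ) with h | h <;> simp [h]
  rw [this, norm_prod]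
  exact Finset.prod_le_prod (fun _ _ => norm_nonneg _) fun i _ => h _ _

end FouAux

theorem fou (d : Dat k n E) (N : ℕ) [NeZero N] (y : Fin E → ℂ) (hy : ∀ e, ‖y e‖ ≤ 1)
    (t : Fin k → ℝ) :
    ∏ u : Fin k → Fin N, ‖(Matrix.of fun i j => ∑ e, if d.r e = i ∧ d.c e = j then
      (d.ε e : ℂ) * y e * Complex.exp (2 * (Real.pi : ℂ) * Complex.I *
        ∑ l, ((d.s e l : ℕ) : ℂ) * ((t l + ((u l : ℕ) : ℝ) / (N : ℝ) : ℝ) : ℂ)) else 0 :
        Matrix (Fin n) (Fin n) ℂ).det‖ ≤ (((d.cov N).permanent : ℕ) : ℝ) := by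
  have h1 : ∏ u : Fin k → Fin N, ‖(FouAux.MM d N y t u).det‖ ≤
      (((d.cov N).permanent : ℕ) : ℝ) := by
    rw [← norm_prod, ← FouAux.det_BB]
    exact FouAux.norm_det_le _ _ (FouAux.BB_le d N y hy t)
  exact h1

end Pool.Agent.H2.PG
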