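import Pool.Agent.H2.PG.Main
import Pool.Agent.H2.PG.FOU
import Pool.Agent.H2.PG.SHIFT

set_option autoImplicit false

/-! A power of the Mahler measure is at most every bound for the products of translates. -/

namespace Pool.Agent.H2.PG

open MeasureTheory Pool.Agent.H261R2.CM LEN

theorem tv_cont {m : ℕ} (F : MvPolynomial (Fin m) ℤ) : Continuous (tv F) := by
  unfold tv
  refine (MvPolynomial.continuous_eval _).comp (continuous_pi fun j => ?_)
  fun_prop

theorem tv_per {m : ℕ} (F : MvPolynomial (Fin m) ℤ) (x : Fin m → ℝ) (i : Fin m) :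
    tv F (Function.update x i (x i + 1)) = tv F x := by
  have key : (fun j : Fin m => Complex.exp (2 * (Real.pi : ℂ) * Complex.I *
      ((Function.update x i (x i + 1) j : ℝ) : ℂ))) =
      fun j : Fin m => Complex.exp (2 * (Real.pi : ℂ) * Complex.I * ((x j : ℝ) : ℂ)) := by
   funext j
   by_cases h : j = i
   · subst h
     rw [Function.update_self]
     have : (2 * (Real.pi : ℂ) * Complex.I * ((x j + 1 : ℝ) : ℂ)) =
        2 * (Real.pi : ℂ) * Complex.I * ((x j : ℝ) : ℂ) + 2 * (Real.pi : ℂ) * Complex.I := by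
       push_cast; ring
     rw [this, Complex.exp_add, Complex.exp_two_pi_mul_I, mul_one]
   · rw [Function.update_of_ne h]
  unfold tv
  rw [key]

theorem shift_int {m : ℕ} (f : (Fin m → ℝ) → ℝ) (hm : Measurable f)
    (hf : ∀ (x : Fin m → ℝ) (i : Fin m), f (Function.update x i (x i + 1)) = f x)
    (hi : IntegrableOn f (Set.Icc (0 : Fin m → ℝ) 1)) (v : Fin m → ℝ) :
    IntegrableOn (fun t => f (t + v)) (Set.Icc (0 : Fin m → ℝ) 1) := by
  have h1 := shift (fun t => |f t| + 1) (fun x i => by simp only [hf]) v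
  have hvol : volume.real (Set.Icc (0 : Fin m → ℝ) 1) = 1 := by
    simp [Measure.real, Real.volume_Icc_pi]
  have hc : IntegrableOn (fun _ : Fin m → ℝ => (1 : ℝ)) (Set.Icc (0 : Fin m → ℝ) 1) :=
    integrableOn_const (by simp [Real.volume_Icc_pi])
  have h2 : ∫ t in Set.Icc (0 : Fin m → ℝ) 1, (|f t| + 1) =
      (∫ t in Set.Icc (0 : Fin m → ℝ) 1, |f t|) + 1 := by
    rw [integral_add hi.abs hc]
    simp
  have h3 : 0 ≤ ∫ t in Set.Icc (0 : Fin m → ℝ) 1, |f t| := integral_nonneg fun _ => abs_nonneg _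
  have h4 : IntegrableOn (fun t => |f (t + v)| + 1) (Set.Icc (0 : Fin m → ℝ) 1) := by
    apply Integrable.of_integral_ne_zero
    rw [h1, h2]
    linarith
  have h5 : IntegrableOn (fun t => |f (t + v)|) (Set.Icc (0 : Fin m → ℝ) 1) := by
    have := h4.sub hc
    refine this.congr (Filter.Eventually.of_forall fun t => ?_)
    simp
  have h6 : AEStronglyMeasurable (fun t => f (t + v)) (volume.restrict (Set.Icc (0 : Fin m → ℝ) 1)) :=
    (hm.comp (measurable_id.add_const v)).aestronglyMeasurable
  exact (integrable_norm_iff h6).1 h5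

theorem shift_ae {m : ℕ} {F : MvPolynomial (Fin m) ℤ} (hF : F ≠ 0) (v : Fin m → ℝ) :
    ∀ᵐ t ∂(volume.restrict (Set.Icc (0 : Fin m → ℝ) 1)), tv F (t + v) ≠ 0 := by
  classical
  set g : (Fin m → ℝ) → ℝ := fun t => if tv F t = 0 then 1 else 0 with hg
  have hgm : Measurable g := by
    refine Measurable.ite ?_ measurable_const measurable_const
    exact (isClosed_eq (tv_cont F) continuous_const).measurableSet
  have h1 := shift g (fun x i => by simp only [hg, tv_per]) v
  have h2 : ∫ t in Set.Icc (0 : Fin m → ℝ) 1, g t = 0 := by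
    apply integral_eq_zero_of_ae
    filter_upwards [F_zero_null hF] with t ht
    simp [hg, ht]
  rw [h2] at h1
  have h3 : IntegrableOn (fun t => g (t + v)) (Set.Icc (0 : Fin m → ℝ) 1) := by
    have hc : IntegrableOn (fun _ : Fin m → ℝ => (1 : ℝ)) (Set.Icc (0 : Fin m → ℝ) 1) :=
      integrableOn_const (by simp [Real.volume_Icc_pi])
    refine Integrable.mono hc (hgm.comp (measurable_id.add_const v)).aestronglyMeasurable ?_
    refine Filter.Eventually.of_forall fun t => ?_
    simp only [hg]
    split_ifs <;> simp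
  have h4 := (integral_eq_zero_iff_of_nonneg (fun t => by
    simp only [hg, Pi.zero_apply]; split_ifs <;> simp) h3).1 h1
  filter_upwards [h4] with t ht
  intro h5
  simp only [hg, h5, if_true, Pi.zero_apply] at ht
  exact one_ne_zero ht

theorem pow_le {m : ℕ} {F : MvPolynomial (Fin m) ℤ} (hF : F ≠ 0) {ι : Type} [Fintype ι]
    (v : ι → Fin m → ℝ) (P : ℝ) (h : ∀ x, ∏ u, ‖tv F (x + v u)‖ ≤ P) :
    mM F ^ Fintype.card ι ≤ P := by
  classical
  have hlm : Measurable fun t => Real.log ‖tv F t‖ :=
    Real.measurable_log.comp (tv_cont F).norm.measurable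
  have hper : ∀ (x : Fin m → ℝ) (i : Fin m), Real.log ‖tv F (Function.update x i (x i + 1))‖ =
      Real.log ‖tv F x‖ := fun x i => by rw [tv_per]
  have hint : ∀ u, IntegrableOn (fun t => Real.log ‖tv F (t + v u)‖) (Set.Icc (0 : Fin m → ℝ) 1) :=
    fun u => shift_int _ hlm hper (F_integrable hF) (v u)
  have hsum : ∫ t in Set.Icc (0 : Fin m → ℝ) 1, ∑ u, Real.log ‖tv F (t + v u)‖ =
      Fintype.card ι * Real.log (mM F) := by
    rw [integral_finsetSum _ fun u _ => hint u]
    have : ∀ u, ∫ t in Set.Icc (0 : Fin m → ℝ) 1, Real.log ‖tv F (t + v u)‖ = Real.log (mM F) := by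
      intro u
      rw [log_mM]
      exact shift (fun t => Real.log ‖tv F t‖) hper (v u)
    rw [Finset.sum_congr rfl fun u _ => this u]
    simp
  have hae : ∀ᵐ t ∂(volume.restrict (Set.Icc (0 : Fin m → ℝ) 1)), ∀ u, tv F (t + v u) ≠ 0 :=
    ae_all_iff.2 fun u => shift_ae hF (v u)
  have hvol : volume.real (Set.Icc (0 : Fin m → ℝ) 1) = 1 := by
    simp [Measure.real, Real.volume_Icc_pi]
  have hP : 0 < P := by
    have : NeZero (volume.restrict (Set.Icc (0 : Fin m → ℝ) 1)) := by
      refine ⟨?_⟩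
      intro h0
      have : volume.real (Set.Icc (0 : Fin m → ℝ) 1) = 0 := by
        rw [Measure.restrict_eq_zero] at h0
        simp [Measure.real, h0]
      rw [hvol] at this
      exact one_ne_zero this
    obtain ⟨t, ht⟩ := hae.exists
    exact lt_of_lt_of_le (Finset.prod_pos fun u _ => norm_pos_iff.2 (ht u)) (h t)
  have hle : Fintype.card ι * Real.log (mM F) ≤ Real.log P := by
    rw [← hsum]
    have h1 : ∫ t in Set.Icc (0 : Fin m → ℝ) 1, Real.log P = Real.log P := by
      simp
    rw [← h1]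
    refine integral_mono_ae (integrable_finsetSum _ fun u _ => hint u)
      (integrableOn_const (by simp [Real.volume_Icc_pi])) ?_
    filter_upwards [hae] with t ht
    rw [← Real.log_prod fun u _ => (norm_pos_iff.2 (ht u)).ne']
    exact Real.log_le_log (Finset.prod_pos fun u _ => norm_pos_iff.2 (ht u)) (h t)
  have hM : 0 < mM F := lt_of_lt_of_le one_pos (one_le_mM F hF)
  rw [← Real.log_pow] at hle
  exact (Real.log_le_log_iff (pow_pos hM _) hP).1 hle

end Pool.Agent.H2.PG
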