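import Pool.Agent.H2.PG.One
import Pool.Agent.H2.L.R_seed8.H887R3.LW.MV8
import Pool.Agent.H2.L.R_seed8.H261R2.CM.K8

set_option autoImplicit false

/-! Irreducible polynomials of degree one in some variable: gap and dimension; the factorisation. -/

namespace Pool.Agent.H2.PG

open MeasureTheory Pool.Agent.H261R2.CM

theorem big (B : ℝ) (hB : 1 ≤ B) : ∃ (c : ℝ) (m₀ : ℕ), 1 < c ∧
    ∀ (k : ℕ) (f : MvPolynomial (Fin k) ℤ) (i : Fin k), Irreducible f → f.degreeOf i = 1 →
      mM f ≤ B → Pool.Agent.H887R3.LW.newtonDim f < m₀ ∧ (mM f = 1 ∨ c ≤ mM f) := by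
  obtain ⟨c, hc, hgap⟩ := gap_all (Real.log B + Real.log 2)
  obtain ⟨m₀, hm₀⟩ := Pool.Agent.H887R3.LW.boyd_dim (B + 1) 1
  refine ⟨c, m₀, hc, fun k f i hf hi hfB => ⟨?_, ?_⟩⟩
  · by_contra h
    push Not at h
    have := hm₀ k f hf h (Or.inr ⟨i, hi.ge, hi.le⟩)
    linarith
  · by_cases hX : MvPolynomial.X i ∣ f
    · left
      have h1 : Associated (MvPolynomial.X i) f :=
        (MvPolynomial.X_prime (R := ℤ)).irreducible.associated_of_dvd hf hX
      rw [← J.mM_associated h1, J.mM_X]
    · obtain ⟨F', G', h1, h2, h3, h4, h5⟩ := width_pair f hf.ne_zero i 1 hi.le hX (by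
        intro Q hQ hQi
        obtain ⟨R, hR⟩ := hQ
        rcases hf.isUnit_or_isUnit hR with h | h
        · exact h
        · exfalso
          have hQ0 : Q ≠ 0 := by rintro rfl; rw [zero_mul] at hR; exact hf.ne_zero hR
          have h6 := MvPolynomial.degreeOf_mul_eq (n := i) hQ0 h.ne_zero
          rw [← hR, hi, hQi, Pool.Agent.H887R3.LW.degreeOf_unit h i] at h6
          omega)
      have h6 := hgap _ F' G' h1 h2 h3 (h5.trans (by
        have : Real.log (mM f) ≤ Real.log B :=
          Real.log_le_log (lt_of_lt_of_le one_pos (one_le_mM f hf.ne_zero)) hfB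
        push_cast
        linarith))
      rw [h4] at h6
      exact h6

end Pool.Agent.H2.PG
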