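import Pool.Agent.H2.PG.Defs2

set_option autoImplicit false

/-!
# PG-PBD: the permanent of a block diagonal matrix
-/

namespace Pool.Agent.H2.PG

open MvPolynomial

namespace PbdA

theorem block {o m : Type*} [Fintype o] [DecidableEq o] [Fintype m] [DecidableEq m]
    (M : o → Matrix m m ℤ) (A : Matrix (o × m) (o × m) ℤ)
    (hA : ∀ p q : o × m, A p q = if p.1 = q.1 then M p.1 p.2 q.2 else 0) :
    A.permanent = ∏ k, (M k).permanent := by
  classical
  unfold Matrix.permanent
  rw [Finset.prod_univ_sum]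
  symm
  refine Finset.sum_of_injOn (fun σ : o → Equiv.Perm m => (Equiv.prodCongrRight σ :
    Equiv.Perm (o × m))) ?_ (fun σ _ => Finset.mem_coe.2 (Finset.mem_univ _)) ?_ ?_
  · intro σ _ σ' _ h
    funext k
    ext x
    have h1 := congrArg (fun e : Equiv.Perm (o × m) => (e (k, x)).2) h
    simpa using h1
  · intro σ _ hσ
    by_contra hne
    apply hσ
    have hpres : ∀ p, (σ p).1 = p.1 := by
      intro p
      have h1 := Finset.prod_ne_zero_iff.1 hne p (Finset.mem_univ p)
      rw [hA] at h1
      by_contra hcon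
      exact h1 (if_neg hcon)
    have hpres' : ∀ p, (σ.symm p).1 = p.1 := by
      intro p
      have h1 := hpres (σ.symm p)
      rw [Equiv.apply_symm_apply] at h1
      exact h1.symm
    refine ⟨fun k => ⟨fun x => (σ (k, x)).2, fun x => (σ.symm (k, x)).2, fun x => ?_, fun x => ?_⟩,
      by simp, ?_⟩
    · have h1 : (k, (σ (k, x)).2) = σ (k, x) := Prod.ext (hpres (k, x)).symm rfl
      show (σ.symm (k, (σ (k, x)).2)).2 = x
      rw [h1, Equiv.symm_apply_apply]
    · have h1 : (k, (σ.symm (k, x)).2) = σ.symm (k, x) := Prod.ext (hpres' (k, x)).symm rfl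
      show (σ (k, (σ.symm (k, x)).2)).2 = x
      rw [h1, Equiv.apply_symm_apply]
    · ext ⟨k, x⟩
      · exact (hpres (k, x)).symm
      · rfl
  · intro σ _
    rw [Fintype.prod_prod_type]
    refine Finset.prod_congr rfl fun k _ => Finset.prod_congr rfl fun x _ => ?_
    rw [hA]
    simp

end PbdA

variable {k n : ℕ}

theorem pbd (N : ℕ) [NeZero N] (v : Fin n → MvPolynomial (Fin k) ℤ) :
    (cover N (Matrix.diagonal v)).permanent = ∏ i, (c1 N (v i)).permanent := by
  refine PbdA.block (fun i => c1 N (v i)) _ fun p q => ?_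
  by_cases h : p.1 = q.1
  · rw [if_pos h]
    unfold cover c1
    simp only [Matrix.of_apply]
    rw [h, Matrix.diagonal_apply_eq]
  · rw [if_neg h]
    unfold cover
    simp only [Matrix.of_apply]
    rw [Matrix.diagonal_apply_ne _ h]
    simp

end Pool.Agent.H2.PG
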