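import Pool.Agent.H2.PG.Defs2

set_option autoImplicit false

/-! # Project PG, part PBIN -/

namespace Pool.Agent.H2.PG

open MvPolynomial

variable {k n : ℕ}

/-- The pattern of a permutation moving every point by one of two vectors is invariant under the
translation by the difference of the two vectors. -/
theorem pbin_inv {N : ℕ} [NeZero N] (γ : Bool → Fin k → ZMod N)
    (σ : Equiv.Perm (Fin k → ZMod N)) (c : (Fin k → ZMod N) → Bool)
    (h : ∀ x, σ x = x - γ (c x)) (x : Fin k → ZMod N) :
    c (x + (γ false - γ true)) = c x := by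
  set δ := γ false - γ true with hδ
  by_cases h0 : δ = 0
  · rw [h0, add_zero]
  have h1 : ∀ y, c y = true → c (y + δ) = true := by
    intro y hy
    by_contra hne
    rw [Bool.not_eq_true] at hne
    have e1 := h y
    have e2 := h (y + δ)
    rw [hy] at e1
    rw [hne] at e2
    have e3 : σ (y + δ) = σ y := by
      rw [e1, e2, hδ]
      abel
    have e4 := σ.injective e3
    exact h0 (by simpa using e4)
  have h2 : ∀ (n : ℕ) (y : Fin k → ZMod N), c y = true → c (y + n • δ) = true := by
    intro n
    induction n with
    | zero =>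
      intro y hy
      simpa using hy
    | succ n ih =>
      intro y hy
      rw [succ_nsmul, ← add_assoc]
      exact h1 _ (ih y hy)
  have h3 : N • δ = 0 := by
    funext i
    simp
  rw [Bool.eq_iff_iff]
  constructor
  · intro hx
    have h4 := h2 (N - 1) _ hx
    have h5 : x + δ + (N - 1) • δ = x := by
      have h6 : δ + (N - 1) • δ = N • δ := by
        rw [← succ_nsmul', Nat.sub_add_cancel NeZero.one_le]
      rw [add_assoc, h6, h3, add_zero]
    rwa [h5] at h4
  · exact h1 x

/-- Invariant patterns are determined by the points with a small coordinate. -/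
theorem pbin_red {N : ℕ} [NeZero N] (a b : ℕ) (hab : a ≠ b) (i : Fin k) (δ : Fin k → ZMod N)
    (hδ : δ i = (b : ZMod N) - (a : ZMod N)) (c c' : (Fin k → ZMod N) → Bool)
    (hc : ∀ x, c (x + δ) = c x) (hc' : ∀ x, c' (x + δ) = c' x)
    (h : ∀ x : Fin k → ZMod N, (x i).val < ((a : ℤ) - b).natAbs → c x = c' x) : c = c' := by
  have key : ∀ (v : ℕ) (x : Fin k → ZMod N), (x i).val = v → c x = c' x := by
    intro v
    induction v using Nat.strong_induction_on with
    | _ v ih =>
      intro x hx
      obtain ⟨m, hm⟩ : ∃ m, m = ((a : ℤ) - b).natAbs := ⟨_, rfl⟩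
      rw [← hm] at h
      by_cases hlt : (x i).val < m
      · exact h x hlt
      push Not at hlt
      have hN : (x i).val < N := ZMod.val_lt _
      have hm0 : 0 < m := by omega
      have hmv : ((m : ℕ) : ZMod N).val = m := ZMod.val_cast_of_lt (by omega)
      have hval : (x i - (m : ZMod N)).val = (x i).val - m := by
        rw [ZMod.val_sub (by rw [hmv]; exact hlt), hmv]
      rcases lt_or_gt_of_ne hab with hlt' | hgt
      · have hd : δ i = (m : ZMod N) := by
          have hb : b = a + m := by omega
          rw [hδ, hb]
          push_cast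
          ring
        have h7 := ih ((x i).val - m) (by omega) (x - δ) (by rw [Pi.sub_apply, hd, hval])
        have e1 := hc (x - δ)
        have e2 := hc' (x - δ)
        rw [sub_add_cancel] at e1 e2
        rw [e1, e2, h7]
      · have hd : δ i = -(m : ZMod N) := by
          have ha : a = b + m := by omega
          rw [hδ, ha]
          push_cast
          ring
        have h7 := ih ((x i).val - m) (by omega) (x + δ) (by
          rw [Pi.add_apply, hd, ← sub_eq_add_neg, hval])
        rw [← hc x, ← hc' x, h7]
  funext x
  exact key _ x rfl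

theorem pbin (N : ℕ) [NeZero N] (a b : Fin k →₀ ℕ) (ε : ℤ) (hε : ε = 1 ∨ ε = -1) (i : Fin k)
    (hi : a i ≠ b i) :
    (c1 N (monomial a 1 + monomial b ε)).permanent ≤
      2 ^ (((a i : ℤ) - (b i : ℤ)).natAbs * N ^ (k - 1)) := by
  classical
  have hab : a ≠ b := fun h => hi (by rw [h])
  let γ : Bool → Fin k → ZMod N := fun c l =>
    if c then ((a l : ℕ) : ZMod N) else ((b l : ℕ) : ZMod N)
  have hiff : ∀ (s : Fin k →₀ ℕ) (c : Bool) (x x' : Fin k → ZMod N),
      γ c = (fun l => ((s l : ℕ) : ZMod N)) →
      ((∀ l, ((s l : ℕ) : ZMod N) = x' l - x l) ↔ x = x' - γ c) := by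
    intro s c x x' hγ
    rw [hγ]
    constructor
    · intro h
      funext l
      rw [Pi.sub_apply, h l]
      ring
    · intro h l
      rw [h, Pi.sub_apply]
      ring
  have hent : ∀ x x', c1 N (monomial a 1 + monomial b ε) x x' =
      ∑ c : Bool, if x = x' - γ c then (1 : ℤ) else 0 := by
    intro x x'
    unfold c1
    rw [Matrix.of_apply]
    have hsub : (monomial a 1 + monomial b ε : MvPolynomial (Fin k) ℤ).support ⊆ {a, b} := by
      refine (support_add).trans ?_
      refine Finset.union_subset (support_monomial_subset.trans ?_)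
        (support_monomial_subset.trans ?_) <;> simp
    rw [Finset.sum_subset hsub (by
      intro s _ hs
      rw [notMem_support_iff.1 hs]
      simp)]
    rw [Finset.sum_pair hab, Fintype.sum_bool]
    have hca : |coeff a (monomial a 1 + monomial b ε : MvPolynomial (Fin k) ℤ)| = 1 := by
      rw [coeff_add, coeff_monomial, coeff_monomial, if_pos rfl, if_neg hab.symm]
      simp
    have hcb : |coeff b (monomial a 1 + monomial b ε : MvPolynomial (Fin k) ℤ)| = 1 := by
      rw [coeff_add, coeff_monomial, coeff_monomial, if_pos rfl, if_neg hab]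
      rcases hε with h | h <;> simp [h]
    rw [hca, hcb]
    congr 1
    · exact if_congr (hiff a true x x' (by funext l; simp [γ])) rfl rfl
    · exact if_congr (hiff b false x x' (by funext l; simp [γ])) rfl rfl
  -- the permanent
  have hper : (c1 N (monomial a 1 + monomial b ε)).permanent =
      ∑ c : (Fin k → ZMod N) → Bool, ∑ σ : Equiv.Perm (Fin k → ZMod N),
        if ∀ x, σ x = x - γ (c x) then (1 : ℤ) else 0 := by
    rw [Finset.sum_comm]
    unfold Matrix.permanent
    refine Finset.sum_congr rfl fun σ _ => ?_
    simp only [hent]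
    rw [Finset.prod_univ_sum, Fintype.piFinset_univ]
    refine Finset.sum_congr rfl fun c _ => ?_
    rw [Finset.prod_ite_zero]
    simp
  rw [hper]
  let R : Finset (Fin k → ZMod N) :=
    Finset.univ.filter fun x => (x i).val < ((a i : ℤ) - (b i : ℤ)).natAbs
  let I : Finset ((Fin k → ZMod N) → Bool) :=
    Finset.univ.filter fun c => ∀ x, c (x + (γ false - γ true)) = c x
  have hδ : (γ false - γ true) i = ((b i : ℕ) : ZMod N) - ((a i : ℕ) : ZMod N) := by
    simp [γ]
  have hle1 : ∑ c : (Fin k → ZMod N) → Bool, ∑ σ : Equiv.Perm (Fin k → ZMod N),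
        (if ∀ x, σ x = x - γ (c x) then (1 : ℤ) else 0) ≤ (I.card : ℤ) := by
    rw [Finset.card_filter]
    push_cast
    refine Finset.sum_le_sum fun c _ => ?_
    rw [Finset.sum_boole]
    split_ifs with hinv
    · norm_cast
      rw [Finset.card_le_one]
      intro σ hσ τ hτ
      simp only [Finset.mem_filter, Finset.mem_univ, true_and] at hσ hτ
      ext1 x
      rw [hσ x, hτ x]
    · norm_cast
      rw [Nat.le_zero, Finset.card_eq_zero, Finset.filter_eq_empty_iff]
      intro σ _ hσ
      exact hinv (pbin_inv γ σ c hσ)
  have hle2 : I.card ≤ 2 ^ R.card := by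
    have h1 : I.card ≤ (Finset.univ : Finset (R → Bool)).card := by
      refine Finset.card_le_card_of_injOn (fun c r => c r.1) (fun _ _ => Finset.mem_univ _) ?_
      intro c hc c' hc' hcc
      have hc1 := (Finset.mem_filter.1 (Finset.mem_coe.1 hc)).2
      have hc2 := (Finset.mem_filter.1 (Finset.mem_coe.1 hc')).2
      refine pbin_red (a i) (b i) hi i _ hδ c c' hc1 hc2 ?_
      intro x hx
      have := congrFun hcc ⟨x, Finset.mem_filter.2 ⟨Finset.mem_univ _, hx⟩⟩
      exact this
    refine h1.trans (le_of_eq ?_)
    rw [Finset.card_univ, Fintype.card_fun, Fintype.card_bool, Fintype.card_coe]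
  have hle3 : R.card ≤ ((a i : ℤ) - (b i : ℤ)).natAbs * N ^ (k - 1) := by
    obtain ⟨m, hm⟩ : ∃ m, m = ((a i : ℤ) - (b i : ℤ)).natAbs := ⟨_, rfl⟩
    have hR : R = Fintype.piFinset (fun j : Fin k => if j = i then
        Finset.univ.filter (fun z : ZMod N => z.val < m) else Finset.univ) := by
      ext x
      simp only [R, Finset.mem_filter, Finset.mem_univ, true_and, Fintype.mem_piFinset, ← hm]
      constructor
      · intro h j
        by_cases hj : j = i
        · subst hj
          simpa using h
        · simp [hj]
      · intro h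
        have := h i
        simpa using this
    rw [hR, Fintype.card_piFinset, ← Finset.mul_prod_erase Finset.univ _ (Finset.mem_univ i), ← hm]
    refine Nat.mul_le_mul ?_ ?_
    · rw [if_pos rfl]
      have h1 := Finset.card_le_card_of_injOn (s := Finset.univ.filter (fun z : ZMod N => z.val < m))
        (t := Finset.range m) ZMod.val (by
          intro z hz
          have := (Finset.mem_filter.1 (Finset.mem_coe.1 hz)).2
          simpa using this) (ZMod.val_injective N).injOn
      rwa [Finset.card_range] at h1
    · rw [Finset.prod_congr rfl (g := fun _ => N) (by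
        intro j hj
        rw [if_neg (Finset.ne_of_mem_erase hj), Finset.card_univ, ZMod.card])]
      rw [Finset.prod_const, Finset.card_erase_of_mem (Finset.mem_univ i), Finset.card_univ,
        Fintype.card_fin]
  refine hle1.trans ?_
  have h4 : I.card ≤ 2 ^ (((a i : ℤ) - (b i : ℤ)).natAbs * N ^ (k - 1)) :=
    hle2.trans (Nat.pow_le_pow_right two_pos hle3)
  exact_mod_cast h4

end Pool.Agent.H2.PG
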