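import Pool.Agent.H2.PG.Defs2

set_option autoImplicit false

/-!
# PG-PROW: the permanent is at most the product of the column sums
-/

namespace Pool.Agent.H2.PG

open MvPolynomial

namespace ProwA

theorem perm_nonneg {m : Type*} [Fintype m] [DecidableEq m] (M : Matrix m m ℤ)
    (hM : ∀ i j, 0 ≤ M i j) : 0 ≤ M.permanent := by
  unfold Matrix.permanent
  exact Finset.sum_nonneg fun σ _ => Finset.prod_nonneg fun i _ => hM _ _

theorem perm_le {m : Type*} [Fintype m] [DecidableEq m] (M : Matrix m m ℤ)
    (hM : ∀ i j, 0 ≤ M i j) : M.permanent ≤ ∏ j, ∑ i, M i j := by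
  classical
  rw [Finset.prod_univ_sum]
  unfold Matrix.permanent
  have hinj : Function.Injective (fun σ : Equiv.Perm m => (σ : m → m)) :=
    fun σ σ' h => Equiv.ext fun x => congrFun h x
  calc ∑ σ : Equiv.Perm m, ∏ i, M (σ i) i
      = ∑ f ∈ Finset.univ.map ⟨fun σ : Equiv.Perm m => (σ : m → m), hinj⟩, ∏ i, M (f i) i := by
        rw [Finset.sum_map]
        rfl
    _ ≤ _ := by
        refine Finset.sum_le_sum_of_subset_of_nonneg ?_ fun f _ _ =>
          Finset.prod_nonneg fun i _ => hM _ _
        intro f _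
        rw [Fintype.mem_piFinset]
        intro i
        exact Finset.mem_univ _

end ProwA

variable {k n : ℕ}

theorem prow (N : ℕ) [NeZero N] (Q : MvPolynomial (Fin k) ℤ) :
    0 ≤ (c1 N Q).permanent ∧ (c1 N Q).permanent ≤ (len Q) ^ (N ^ k) := by
  classical
  have hnn : ∀ x x', 0 ≤ c1 N Q x x' := by
    intro x x'
    unfold c1
    rw [Matrix.of_apply]
    refine Finset.sum_nonneg fun s _ => ?_
    split_ifs
    · exact abs_nonneg _
    · exact le_rfl
  refine ⟨ProwA.perm_nonneg _ hnn, (ProwA.perm_le _ hnn).trans (le_of_eq ?_)⟩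
  have hcol : ∀ x', ∑ x, c1 N Q x x' = len Q := by
    intro x'
    unfold c1 len
    simp only [Matrix.of_apply]
    rw [Finset.sum_comm]
    refine Finset.sum_congr rfl fun s _ => ?_
    have h1 : ∀ x : Fin k → ZMod N, (∀ l, ((s l : ℕ) : ZMod N) = x' l - x l) ↔
        x = fun l => x' l - ((s l : ℕ) : ZMod N) := by
      intro x
      rw [funext_iff]
      refine forall_congr' fun l => ?_
      constructor
      · intro h
        rw [h]
        ring
      · intro h
        rw [h]
        ring
    simp only [h1]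
    rw [Finset.sum_ite_eq' Finset.univ, if_pos (Finset.mem_univ _)]
  simp only [hcol]
  rw [Finset.prod_const, Finset.card_univ, Fintype.card_pi, Finset.prod_const, ZMod.card,
    Finset.card_univ, Fintype.card_fin]

end Pool.Agent.H2.PG
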