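import Pool.Agent.H2.PG.Kas
import Pool.Agent.H2.PG.PBD
import Pool.Agent.H2.PG.PROW
import Pool.Agent.H2.PG.PBIN

set_option autoImplicit false

/-! The converse: products of binomials and of a polynomial of bounded length. -/

namespace Pool.Agent.H2.PG

open MeasureTheory Pool.Agent.H261R2.CM LEN

variable {k n E : ℕ}

theorem binom_le {P : MvPolynomial (Fin k) ℤ} (h : IsBinom P) :
    1 ≤ k ∧ ∃ C : ℕ, ∀ (N : ℕ) [NeZero N], (c1 N P).permanent ≤ 2 ^ (C * N ^ (k - 1)) := by
  obtain ⟨a, b, ε, hab, hε, rfl⟩ := h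
  obtain ⟨i, hi⟩ := Finsupp.ne_iff.1 hab
  exact ⟨by have := i.2; omega, _, fun N _ => pbin N a b ε hε i hi⟩

theorem len_pos {Q : MvPolynomial (Fin k) ℤ} (hQ : Q ≠ 0) : 1 ≤ len Q := by
  obtain ⟨s, hs⟩ := MvPolynomial.support_nonempty.2 hQ
  refine le_trans ?_ (Finset.single_le_sum (f := fun s => |Q.coeff s|)
      (fun s _ => abs_nonneg _) hs)
  exact Int.one_le_abs (MvPolynomial.mem_support_iff.mp hs)

theorem conv (Q : MvPolynomial (Fin k) ℤ) (hQ : Q ≠ 0) (bs : Multiset (MvPolynomial (Fin k) ℤ))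
    (hbs : ∀ P ∈ bs, IsBinom P) (ε : ℝ) (hε : 0 < ε) :
    ∃ (n : ℕ) (A : Matrix (Fin n) (Fin n) (MvPolynomial (Fin k) ℤ)), A.det = Q * bs.prod ∧
      ∃ (N : ℕ) (_ : NeZero N), (((cover N A).permanent : ℤ) : ℝ) ≤
        ((len Q : ℝ) + ε) ^ (N ^ k) := by
  classical
  obtain ⟨l, rfl⟩ := Quot.exists_rep bs
  have hbs' : ∀ i : Fin l.length, IsBinom (l.get i) := fun i => hbs _ (by
    exact Multiset.mem_coe.2 (List.get_mem l i))
  set v : Fin (l.length + 1) → MvPolynomial (Fin k) ℤ := Fin.cons Q l.get with hv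
  have hL : (1 : ℝ) ≤ (len Q : ℝ) := by exact_mod_cast len_pos hQ
  refine ⟨l.length + 1, Matrix.diagonal v, ?_, ?_⟩
  · rw [Matrix.det_diagonal, Fin.prod_univ_succ]
    simp only [hv, Fin.cons_zero, Fin.cons_succ]
    congr 1
    have : Multiset.prod (Quot.mk _ l : Multiset (MvPolynomial (Fin k) ℤ)) = l.prod :=
      Multiset.prod_coe l
    rw [this, ← List.prod_ofFn, List.ofFn_get]
  · choose h1 C hC using fun i => binom_le (hbs' i)
    have hperm : ∀ (N : ℕ) [NeZero N], (((cover N (Matrix.diagonal v)).permanent : ℤ) : ℝ) ≤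
        (len Q : ℝ) ^ (N ^ k) * 2 ^ ((∑ i, C i) * N ^ (k - 1)) := by
      intro N _
      rw [pbd, Fin.prod_univ_succ]
      simp only [hv, Fin.cons_zero, Fin.cons_succ]
      have e1 := (prow N Q).2
      have e2 : ∏ i, (c1 N (l.get i)).permanent ≤ 2 ^ ((∑ i, C i) * N ^ (k - 1)) := by
        rw [Finset.sum_mul, ← Finset.prod_pow_eq_pow_sum]
        exact Finset.prod_le_prod (fun i _ => (prow N _).1) fun i _ => hC i N
      have e3 : 0 ≤ ∏ i, (c1 N (l.get i)).permanent := Finset.prod_nonneg fun i _ => (prow N _).1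
      have e4 : 0 ≤ (len Q) ^ (N ^ k) := pow_nonneg (len_nonneg Q) _
      have e5 := mul_le_mul e1 e2 e3 e4
      exact_mod_cast e5
    rcases Nat.eq_zero_or_pos k with hk | hk
    · refine ⟨1, inferInstance, (hperm 1).trans ?_⟩
      have h2 : ∑ i, C i = 0 := by
        apply Finset.sum_eq_zero
        intro i _
        have := h1 i
        omega
      rw [h2, zero_mul, pow_zero, mul_one]
      exact pow_le_pow_left₀ (by linarith) (by linarith) _
    · obtain ⟨N, hN⟩ := pow_unbounded_of_one_lt ((2 : ℝ) ^ (∑ i, C i))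
        (show (1 : ℝ) < 1 + ε / len Q by
          have : 0 < ε / (len Q : ℝ) := by positivity
          linarith)
      have hN1 : (2 : ℝ) ^ (∑ i, C i) ≤ (1 + ε / len Q) ^ (N + 1) := by
        refine hN.le.trans (pow_le_pow_right₀ ?_ (Nat.le_succ N))
        have : 0 < ε / (len Q : ℝ) := by positivity
        linarith
      refine ⟨N + 1, inferInstance, (hperm (N + 1)).trans ?_⟩
      have hk2 : (N + 1) ^ k = (N + 1) * (N + 1) ^ (k - 1) := by
        conv_lhs => rw [show k = (k - 1) + 1 by omega]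
        rw [pow_succ, mul_comm]
      rw [hk2, pow_mul, pow_mul, pow_mul, ← mul_pow]
      refine pow_le_pow_left₀ (by positivity) ?_ _
      calc (len Q : ℝ) ^ (N + 1) * 2 ^ (∑ i, C i) ≤
            (len Q : ℝ) ^ (N + 1) * (1 + ε / len Q) ^ (N + 1) :=
            mul_le_mul_of_nonneg_left hN1 (by positivity)
        _ = ((len Q : ℝ) * (1 + ε / len Q)) ^ (N + 1) := by rw [mul_pow]
        _ = ((len Q : ℝ) + ε) ^ (N + 1) := by
          congr 1
          field_simp

end Pool.Agent.H2.PG
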