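import Pool.Agent.H2.PG.Defs

/-!
# Project PG: `div`, divisors of polynomials with the property `MA`
-/

set_option autoImplicit false

namespace Pool.Agent.H2.PG

open MvPolynomial

namespace DivAux

variable {m : ℕ}

/-- The part of a polynomial with given exponents in the variables of `Y`. -/
noncomputable def part (Y : Fin m → Prop) (P : MvPolynomial (Fin m) ℤ) (a : Fin m →₀ ℕ) :
    MvPolynomial (Fin m) ℤ := by
  classical
  exact ∑ s ∈ P.support.filter (fun s => ∀ i, Y i → s i = a i), monomial s (P.coeff s)

open Classical in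
lemma coeff_part (Y : Fin m → Prop) (P : MvPolynomial (Fin m) ℤ) (a s : Fin m →₀ ℕ) :
    (part Y P a).coeff s = if ∀ i, Y i → s i = a i then P.coeff s else 0 := by
  unfold part
  rw [coeff_sum]
  simp only [coeff_monomial]
  rw [Finset.sum_ite_eq']
  simp only [Finset.mem_filter, mem_support_iff]
  by_cases h : ∀ i, Y i → s i = a i
  · by_cases h2 : P.coeff s = 0
    · simp [h2]
    · rw [if_pos ⟨h2, h⟩, if_pos h]
  · rw [if_neg (fun h' => h h'.2), if_neg h]

end DivAux

open DivAux in
theorem div {m : ℕ} (Y : Fin m → Prop) (P Q : MvPolynomial (Fin m) ℤ) (h : MA Y (P * Q))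
    (h0 : P * Q ≠ 0) : MA Y P := by
  classical
  obtain ⟨h1, h2, h3⟩ := h
  have hP : P ≠ 0 := left_ne_zero_of_mul h0
  have hQ : Q ≠ 0 := right_ne_zero_of_mul h0
  have hdeg : ∀ i, Y i → degreeOf i P + degreeOf i Q ≤ 1 := by
    intro i hi
    rw [← degreeOf_mul_eq hP hQ, degreeOf_le_iff]
    exact fun s hs => h1 s hs i hi
  have hdP : ∀ s ∈ P.support, ∀ i, s i ≤ degreeOf i P := fun s hs i =>
    degreeOf_le_iff.1 le_rfl s hs
  have hdQ : ∀ s ∈ Q.support, ∀ i, s i ≤ degreeOf i Q := fun s hs i =>
    degreeOf_le_iff.1 le_rfl s hs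
  obtain ⟨q, hq⟩ : ∃ q, q ∈ Q.support := by
    obtain ⟨q, hq⟩ := ne_zero_iff.1 hQ
    exact ⟨q, mem_support_iff.2 hq⟩
  -- the key
  have key : ∀ p ∈ P.support, (P.coeff p = 1 ∨ P.coeff p = -1) ∧
      ∀ p' ∈ P.support, (∀ i, Y i → p' i = p i) → p' = p := by
    intro p hp
    have hsep : ∀ a ∈ P.support, ∀ b ∈ Q.support, (∀ i, Y i → (a + b) i = (p + q) i) →
        (∀ i, Y i → a i = p i) ∧ ∀ i, Y i → b i = q i := by
      intro a ha b hb hab
      refine ⟨fun i hi => ?_, fun i hi => ?_⟩
      all_goals
        have e1 := hab i hi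
        have e2 := hdeg i hi
        have e3 := hdP a ha i
        have e4 := hdP p hp i
        have e5 := hdQ b hb i
        have e6 := hdQ q hq i
        simp only [Finsupp.add_apply] at e1
        omega
    have hcoef : ∀ r, (part Y P p * part Y Q q).coeff r =
        if ∀ i, Y i → r i = (p + q) i then (P * Q).coeff r else 0 := by
      intro r
      rw [coeff_mul, coeff_mul]
      split_ifs with hr
      · refine Finset.sum_congr rfl fun x hx => ?_
        rw [Finset.HasAntidiagonal.mem_antidiagonal] at hx
        rw [coeff_part, coeff_part]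
        by_cases ha : P.coeff x.1 = 0
        · simp [ha]
        by_cases hb : Q.coeff x.2 = 0
        · simp [hb]
        have hs := hsep x.1 (mem_support_iff.2 ha) x.2 (mem_support_iff.2 hb)
          (fun i hi => by rw [hx]; exact hr i hi)
        rw [if_pos hs.1, if_pos hs.2]
      · refine Finset.sum_eq_zero fun x hx => ?_
        rw [Finset.HasAntidiagonal.mem_antidiagonal] at hx
        rw [coeff_part, coeff_part]
        by_cases ha : ∀ i, Y i → x.1 i = p i
        · by_cases hb : ∀ i, Y i → x.2 i = q i
          · exfalso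
            apply hr
            intro i hi
            rw [← hx]
            simp only [Finsupp.add_apply]
            rw [ha i hi, hb i hi]
          · rw [if_neg hb, mul_zero]
        · rw [if_neg ha, zero_mul]
    have hP0 : part Y P p ≠ 0 := by
      refine ne_zero_iff.2 ⟨p, ?_⟩
      rw [coeff_part, if_pos fun i _ => rfl]
      exact mem_support_iff.1 hp
    have hQ0 : part Y Q q ≠ 0 := by
      refine ne_zero_iff.2 ⟨q, ?_⟩
      rw [coeff_part, if_pos fun i _ => rfl]
      exact mem_support_iff.1 hq
    obtain ⟨r, hr⟩ := ne_zero_iff.1 (mul_ne_zero hP0 hQ0)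
    have hr' := hr
    rw [hcoef r] at hr'
    have hra : ∀ i, Y i → r i = (p + q) i := by
      by_contra hc
      rw [if_neg hc] at hr'
      exact hr' rfl
    rw [if_pos hra] at hr'
    have hrs : r ∈ (P * Q).support := mem_support_iff.2 hr'
    have hmono : part Y P p * part Y Q q = monomial r ((P * Q).coeff r) := by
      ext r'
      rw [hcoef, coeff_monomial]
      by_cases hrr : r = r'
      · subst hrr
        rw [if_pos hra, if_pos rfl]
      · rw [if_neg hrr]
        split_ifs with hc
        · by_contra hne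
          exact hrr (h3 r hrs r' (mem_support_iff.2 hne) fun i hi => by rw [hra i hi, hc i hi])
        · rfl
    have hdvd : part Y P p ∣ monomial r ((P * Q).coeff r) := hmono ▸ dvd_mul_right _ _
    rw [dvd_monomial_iff_exists hr'] at hdvd
    obtain ⟨m', b, -, hb, hm⟩ := hdvd
    have hb1 : b = 1 ∨ b = -1 := by
      rcases h2 r hrs with h | h
      · rw [h] at hb
        exact Int.isUnit_iff.1 (isUnit_of_dvd_one hb)
      · rw [h] at hb
        exact Int.isUnit_iff.1 (isUnit_of_dvd_one ((dvd_neg.1 hb)))
    have hall : ∀ p' ∈ P.support, (∀ i, Y i → p' i = p i) → m' = p' ∧ P.coeff p' = b := by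
      intro p' hp' hag
      have e1 : (part Y P p).coeff p' = P.coeff p' := by rw [coeff_part, if_pos hag]
      rw [hm, coeff_monomial] at e1
      by_cases hmp : m' = p'
      · rw [if_pos hmp] at e1
        exact ⟨hmp, e1.symm⟩
      · rw [if_neg hmp] at e1
        exact absurd e1.symm (mem_support_iff.1 hp')
    have hpp := hall p hp (fun i _ => rfl)
    refine ⟨by rw [hpp.2]; exact hb1, fun p' hp' hag => ?_⟩
    rw [← (hall p' hp' hag).1, hpp.1]
  refine ⟨fun s hs i hi => ?_, fun s hs => (key s hs).1, fun s hs s' hs' hag => ?_⟩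
  · exact (hdP s hs i).trans ((Nat.le_add_right _ _).trans (hdeg i hi))
  · exact (key s' hs').2 s hs hag

end Pool.Agent.H2.PG
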