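import Pool.Agent.H2.PG.Defs

set_option autoImplicit false

/-! Project PG: the cover of a `1 × 1` matrix. -/

namespace Pool.Agent.H2.PG

open MvPolynomial

/-- The sums of the absolute values of the coefficients of `Q` between the points of the `N`-fold torus. -/
noncomputable def c1 {k : ℕ} (N : ℕ) (Q : MvPolynomial (Fin k) ℤ) :
    Matrix (Fin k → ZMod N) (Fin k → ZMod N) ℤ :=
  Matrix.of fun x x' => ∑ s ∈ Q.support,
    if ∀ l, ((s l : ℕ) : ZMod N) = x' l - x l then |Q.coeff s| else 0

end Pool.Agent.H2.PG
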