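import Pool.Agent.H2.PG.Struct

set_option autoImplicit false

/-! Kasteleyn matrices: the permanental growth is the Mahler measure. -/

namespace Pool.Agent.H2.PG

open MeasureTheory Pool.Agent.H261R2.CM LEN

variable {k n E : ℕ}

/-- the products over the translates of a point are at most the power of the Mahler measure -/
theorem prod_le {F : MvPolynomial (Fin k) ℤ} (hF : F ≠ 0) (η : ℝ) (hη : 0 < η) :
    ∃ N₀ : ℕ, ∀ N : ℕ, N₀ ≤ N → 1 ≤ N → ∀ t : Fin k → ℝ,
      ∏ u : Fin k → Fin N, ‖tv F (fun l => t l + ((u l : ℕ) : ℝ) / (N : ℝ))‖ ≤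
        (mM F * Real.exp η) ^ (N ^ k) := by
  obtain ⟨δ, hδ, hint⟩ := mM_upper F hF (2 * Real.log (mM F) + η) (by linarith)
  set f : (Fin k → ℝ) → ℝ := fun t => Real.log (‖tv F t‖ ^ 2 + δ) / 2 with hf
  have hc : Continuous f := (F_cont_f F δ hδ).div_const 2
  obtain ⟨N₀, hN₀⟩ := riem f hc (fun x i => by simp only [hf, tv_per]) (η / 2) (by linarith)
  refine ⟨N₀, fun N hN hN1 t => ?_⟩
  have h1 := (abs_le.1 (hN₀ N hN hN1 t)).2
  have hif : ∫ x in Set.Icc (0 : Fin k → ℝ) 1, f x ≤ Real.log (mM F) + η / 2 := by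
    simp only [hf]
    rw [integral_div]
    linarith
  have hN0 : (0 : ℝ) < (N : ℝ) ^ k := by
    have : (0 : ℝ) < N := by exact_mod_cast hN1
    positivity
  have h2 : ∑ u : Fin k → Fin N, f (fun l => t l + ((u l : ℕ) : ℝ) / (N : ℝ)) ≤
      (N : ℝ) ^ k * (Real.log (mM F) + η) := by
    have h3 := mul_le_mul_of_nonneg_left hif hN0.le
    nlinarith
  have hM : 0 < mM F := lt_of_lt_of_le one_pos (one_le_mM F hF)
  have h4 : (mM F * Real.exp η) ^ (N ^ k) =
      Real.exp ((N : ℝ) ^ k * (Real.log (mM F) + η)) := by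
    have h5 : mM F * Real.exp η = Real.exp (Real.log (mM F) + η) := by
      rw [Real.exp_add, Real.exp_log hM]
    rw [h5, ← Real.exp_nat_mul]
    push_cast
    rfl
  rw [h4]
  refine le_trans ?_ (Real.exp_le_exp.2 h2)
  rw [Real.exp_sum]
  refine Finset.prod_le_prod (fun _ _ => norm_nonneg _) fun u _ => ?_
  have h6 : 0 < ‖tv F (fun l => t l + ((u l : ℕ) : ℝ) / (N : ℝ))‖ ^ 2 + δ := by positivity
  simp only [hf]
  rw [← Real.log_sqrt h6.le, Real.exp_log (Real.sqrt_pos.2 h6)]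
  apply Real.le_sqrt_of_sq_le
  linarith

/-- **Kasteleyn matrices** -/
theorem kas (A : Matrix (Fin n) (Fin n) (MvPolynomial (Fin k) ℤ)) (h0 : A.det ≠ 0)
    (h : ∀ ε : ℝ, 0 < ε → ∀ N₀ : ℕ, ∃ N : ℕ, N₀ ≤ N ∧ ∃ (_ : NeZero N) (t : Fin k → ℝ),
      (((cover N A).permanent : ℤ) : ℝ) ≤ (1 + ε) ^ (N ^ k) *
        ∏ u : Fin k → Fin N, ‖tv A.det (fun l => t l + ((u l : ℕ) : ℝ) / (N : ℝ))‖)
    (ε : ℝ) (hε : 0 < ε) :
    ∃ (N : ℕ) (_ : NeZero N), (((cover N A).permanent : ℤ) : ℝ) ≤ (mM A.det + ε) ^ (N ^ k) := by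
  have hM : 1 ≤ mM A.det := one_le_mM _ h0
  set η : ℝ := Real.log (1 + ε / mM A.det) / 2 with hη
  have hη0 : 0 < η := by
    have : 0 < ε / mM A.det := by positivity
    have := Real.log_pos (show (1 : ℝ) < 1 + ε / mM A.det by linarith)
    rw [hη]; linarith
  obtain ⟨N₀, hN₀⟩ := prod_le h0 η hη0
  obtain ⟨N, hN, hne, t, ht⟩ := h η hη0 N₀
  refine ⟨N, hne, ht.trans ?_⟩
  have h1 := hN₀ N hN (Nat.one_le_iff_ne_zero.2 hne.out) t
  have h2 : (1 + η) * (mM A.det * Real.exp η) ≤ mM A.det + ε := by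
    have h3 : 1 + η ≤ Real.exp η := by
      have := Real.add_one_le_exp η
      linarith
    have h4 : Real.exp η * Real.exp η = 1 + ε / mM A.det := by
      rw [← Real.exp_add, hη]
      rw [show Real.log (1 + ε / mM A.det) / 2 + Real.log (1 + ε / mM A.det) / 2 =
        Real.log (1 + ε / mM A.det) by ring]
      exact Real.exp_log (by positivity)
    calc (1 + η) * (mM A.det * Real.exp η) ≤ Real.exp η * (mM A.det * Real.exp η) :=
          mul_le_mul_of_nonneg_right h3 (by positivity)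
      _ = mM A.det * (Real.exp η * Real.exp η) := by ring
      _ = mM A.det * (1 + ε / mM A.det) := by rw [h4]
      _ = mM A.det + ε := by field_simp
  calc (1 + η) ^ (N ^ k) *
        ∏ u : Fin k → Fin N, ‖tv A.det (fun l => t l + ((u l : ℕ) : ℝ) / (N : ℝ))‖
      ≤ (1 + η) ^ (N ^ k) * (mM A.det * Real.exp η) ^ (N ^ k) :=
        mul_le_mul_of_nonneg_left h1 (by positivity)
    _ = ((1 + η) * (mM A.det * Real.exp η)) ^ (N ^ k) := by rw [← mul_pow]
    _ ≤ (mM A.det + ε) ^ (N ^ k) := pow_le_pow_left₀ (by positivity) h2 _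

end Pool.Agent.H2.PG
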