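import Pool.Agent.H2.PG.Defs

set_option autoImplicit false

namespace Pool.Agent.H2.PG

open MvPolynomial

variable {k n E : ℕ}

namespace LEN

theorem len_eq {m : ℕ} (P : MvPolynomial (Fin m) ℤ) (T : Finset (Fin m →₀ ℕ))
    (h : P.support ⊆ T) : len P = ∑ s ∈ T, |P.coeff s| := by
  unfold len
  apply Finset.sum_subset h
  intro s _ hs
  rw [notMem_support_iff.1 hs, abs_zero]

theorem len_nonneg {m : ℕ} (P : MvPolynomial (Fin m) ℤ) : 0 ≤ len P :=
  Finset.sum_nonneg fun _ _ => abs_nonneg _

theorem len_add {m : ℕ} (P Q : MvPolynomial (Fin m) ℤ) : len (P + Q) ≤ len P + len Q := by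
  classical
  rw [len_eq (P + Q) (P.support ∪ Q.support) support_add,
    len_eq P (P.support ∪ Q.support) Finset.subset_union_left,
    len_eq Q (P.support ∪ Q.support) Finset.subset_union_right, ← Finset.sum_add_distrib]
  apply Finset.sum_le_sum
  intro s _
  rw [coeff_add]
  exact abs_add_le _ _

theorem len_zero {m : ℕ} : len (0 : MvPolynomial (Fin m) ℤ) = 0 := by
  unfold len
  simp

theorem len_sum {m : ℕ} {ι : Type} (T : Finset ι) (f : ι → MvPolynomial (Fin m) ℤ) :
    len (∑ i ∈ T, f i) ≤ ∑ i ∈ T, len (f i) := by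
  classical
  induction T using Finset.induction_on with
  | empty => simp [len_zero]
  | insert a T ha ih =>
    rw [Finset.sum_insert ha, Finset.sum_insert ha]
    exact (len_add _ _).trans (add_le_add le_rfl ih)

theorem len_mono_mul {m : ℕ} (s : Fin m →₀ ℕ) (a : ℤ) (Q : MvPolynomial (Fin m) ℤ) :
    len (monomial s a * Q) ≤ |a| * len Q := by
  classical
  have hsub : (monomial s a * Q).support ⊆ Q.support.map (addLeftEmbedding s) := by
    intro t ht
    rw [Finset.mem_map]
    by_cases h : s ≤ t
    · refine ⟨t - s, ?_, by simpa using add_tsub_cancel_of_le h⟩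
      rw [mem_support_iff] at ht ⊢
      intro h0
      apply ht
      have e : t = s + (t - s) := (add_tsub_cancel_of_le h).symm
      rw [e, coeff_monomial_mul, h0, mul_zero]
    · exfalso
      rw [mem_support_iff, coeff_monomial_mul', if_neg h] at ht
      exact ht rfl
  rw [len_eq _ _ hsub, Finset.sum_map]
  unfold len
  rw [Finset.mul_sum]
  apply Finset.sum_le_sum
  intro q _
  rw [addLeftEmbedding_apply, coeff_monomial_mul, abs_mul]

end LEN

open LEN

theorem len_mul {m : ℕ} (P Q : MvPolynomial (Fin m) ℤ) : len (P * Q) ≤ len P * len Q := by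
  have h1 : P * Q = ∑ s ∈ P.support, monomial s (P.coeff s) * Q := by
    rw [← Finset.sum_mul, support_sum_monomial_coeff]
  rw [h1]
  refine (len_sum _ _).trans ?_
  have h2 : len P * len Q = ∑ s ∈ P.support, |P.coeff s| * len Q := by
    rw [← Finset.sum_mul]
    rfl
  rw [h2]
  exact Finset.sum_le_sum fun s _ => len_mono_mul _ _ _

namespace LEN

theorem le_one_mul {m : ℕ} {P Q : MvPolynomial (Fin m) ℤ} (hP : len P ≤ 1) (hQ : len Q ≤ 1) :
    len (P * Q) ≤ 1 := by
  have := len_mul P Q
  have h1 := len_nonneg P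
  have h2 := len_nonneg Q
  nlinarith

theorem le_one_mono {m : ℕ} (s : Fin m →₀ ℕ) (a : ℤ) (ha : |a| ≤ 1) :
    len (monomial s a) ≤ 1 := by
  classical
  rw [len_eq _ {s} support_monomial_subset, Finset.sum_singleton, coeff_monomial, if_pos rfl]
  exact ha

theorem le_one_one {m : ℕ} : len (1 : MvPolynomial (Fin m) ℤ) ≤ 1 :=
  le_one_mono 0 1 (by simp)

theorem le_one_pow {m : ℕ} {P : MvPolynomial (Fin m) ℤ} (hP : len P ≤ 1) (j : ℕ) :
    len (P ^ j) ≤ 1 := by
  induction j with
  | zero =>
    rw [pow_zero]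
    exact le_one_one
  | succ j ih =>
    rw [pow_succ]
    exact le_one_mul ih hP

end LEN

theorem len_sp (P : MvPolynomial (Fin (k + E)) ℤ)
    (h : ∀ s ∈ P.support, P.coeff s = 1 ∨ P.coeff s = -1) :
    len (sp k E P) ≤ P.support.card := by
  have h1 : sp k E P = ∑ s ∈ P.support, sp k E (monomial s (P.coeff s)) := by
    rw [← map_sum, support_sum_monomial_coeff]
  rw [h1]
  refine (len_sum _ _).trans ?_
  have h2 : ∀ s ∈ P.support, len (sp k E (monomial s (P.coeff s))) ≤ 1 := by
    intro s hs
    unfold sp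
    rw [aeval_monomial]
    apply le_one_mul
    · have h3 : (algebraMap ℤ (MvPolynomial (Fin k) ℤ)) (P.coeff s) = monomial 0 (P.coeff s) := rfl
      rw [h3]
      apply le_one_mono
      rcases h s hs with h4 | h4 <;> rw [h4] <;> simp
    · unfold Finsupp.prod
      apply Finset.prod_induction _ (fun R => len R ≤ 1) (fun a b => le_one_mul) le_one_one
      intro i _
      apply le_one_pow
      refine Fin.addCases (fun a => ?_) (fun e => ?_) i
      · rw [Fin.addCases_left]
        exact le_one_mono _ 1 (by simp)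
      · rw [Fin.addCases_right]
        exact le_one_one
  refine (Finset.sum_le_sum h2).trans ?_
  simp

end Pool.Agent.H2.PG
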