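import Pool.Agent.H2.PG.Binom
import Pool.Agent.H2.PG.CNT
import Pool.Agent.H2.PG.LEN
import Pool.Agent.H2.PG.DIV

set_option autoImplicit false

/-! Specialisations of multiaffine polynomials of bounded Mahler measure. -/

namespace Pool.Agent.H2.PG

open MeasureTheory Pool.Agent.H261R2.CM LEN

variable {k E : ℕ}

theorem abs_one {a : ℤ} (h : a = 1 ∨ a = -1) : |a| = 1 := by
  rcases h with rfl | rfl <;> simp

/-- the image of a monomial -/
theorem sp_mono (s : Fin (k + E) →₀ ℕ) (a : ℤ) :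
    ∃ s' : Fin k →₀ ℕ, sp k E (MvPolynomial.monomial s a) = MvPolynomial.monomial s' a := by
  refine ⟨Finsupp.equivFunOnFinite.symm fun j => s (Fin.castAdd E j), ?_⟩
  unfold sp
  rw [MvPolynomial.aeval_monomial, MvPolynomial.algebraMap_eq]
  rw [Finsupp.prod_fintype _ _ (fun i => pow_zero _), Fin.prod_univ_add]
  simp only [Fin.addCases_left, Fin.addCases_right, one_pow, Finset.prod_const_one, mul_one]
  rw [MvPolynomial.monomial_eq, Finsupp.prod_fintype _ _ (fun i => pow_zero _)]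
  congr 1

/-- A binomial `z ^ a + z ^ b` or `z ^ a - z ^ b` with `a ≠ b`. -/
def IsBinom (P : MvPolynomial (Fin k) ℤ) : Prop :=
  ∃ (a b : Fin k →₀ ℕ) (ε : ℤ), a ≠ b ∧ (ε = 1 ∨ ε = -1) ∧
    P = MvPolynomial.monomial a 1 + MvPolynomial.monomial b ε

theorem IsBinom.mM {P : MvPolynomial (Fin k) ℤ} (h : IsBinom P) : mM P = 1 := by
  obtain ⟨a, b, ε, hab, hε, rfl⟩ := h
  exact mM_binom a b hab 1 ε (by simp) (abs_one hε)

theorem IsBinom.ne_zero {P : MvPolynomial (Fin k) ℤ} (h : IsBinom P) : P ≠ 0 := by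
  classical
  obtain ⟨a, b, ε, hab, hε, rfl⟩ := h
  intro h0
  have h1 := congrArg (MvPolynomial.coeff a) h0
  rw [MvPolynomial.coeff_add, MvPolynomial.coeff_monomial, MvPolynomial.coeff_monomial,
    if_pos rfl, if_neg (Ne.symm hab), add_zero, MvPolynomial.coeff_zero] at h1
  exact one_ne_zero h1

theorem prod_binom (bs : Multiset (MvPolynomial (Fin k) ℤ)) (h : ∀ P ∈ bs, IsBinom P) :
    bs.prod ≠ 0 ∧ mM bs.prod = 1 := by
  induction bs using Multiset.induction_on with
  | empty =>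
    refine ⟨by simp, ?_⟩
    have := J.mM_C (k := k) (a := 1) one_ne_zero
    simpa using this
  | cons P bs ih =>
    obtain ⟨h1, h2⟩ := ih fun Q hQ => h Q (Multiset.mem_cons_of_mem hQ)
    have hP := h P (Multiset.mem_cons_self _ _)
    rw [Multiset.prod_cons]
    exact ⟨mul_ne_zero hP.ne_zero h1, by rw [mM_mul _ _ hP.ne_zero h1, hP.mM, h2, one_mul]⟩

theorem sp_two (P : MvPolynomial (Fin (k + E)) ℤ)
    (hc : ∀ s ∈ P.support, P.coeff s = 1 ∨ P.coeff s = -1) (h2 : P.support.card ≤ 2)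
    (h0 : sp k E P ≠ 0) : ∃ (s : Fin k →₀ ℕ) (α : ℤ) (R : MvPolynomial (Fin k) ℤ),
      (α = 1 ∨ α = -1) ∧ sp k E P = MvPolynomial.monomial s α * R ∧
        (R = 1 ∨ R = MvPolynomial.C 2 ∨ IsBinom R) := by
  classical
  have hP0 : P ≠ 0 := by rintro rfl; rw [map_zero] at h0; exact h0 rfl
  have hne : P.support.Nonempty := MvPolynomial.support_nonempty.2 hP0
  rcases Nat.lt_or_ge P.support.card 2 with h | h
  · have h1 : P.support.card = 1 := by
      have := hne.card_pos
      omega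
    obtain ⟨a, ha⟩ := Finset.card_eq_one.1 h1
    have h3 : P = MvPolynomial.monomial a (P.coeff a) := by
      conv_lhs => rw [P.as_sum, ha, Finset.sum_singleton]
    obtain ⟨s', hs'⟩ := sp_mono (k := k) (E := E) a (P.coeff a)
    refine ⟨s', P.coeff a, 1, hc a (by rw [ha]; simp), ?_, Or.inl rfl⟩
    rw [mul_one, ← hs', ← h3]
  · obtain ⟨a, b, hab, hsup⟩ := Finset.card_eq_two.1 (le_antisymm h2 h)
    have ha := hc a (by rw [hsup]; simp)
    have hb := hc b (by rw [hsup]; simp)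
    have e2 : P = MvPolynomial.monomial a (P.coeff a) + MvPolynomial.monomial b (P.coeff b) := by
      conv_lhs => rw [P.as_sum, hsup, Finset.sum_pair hab]
    obtain ⟨a', ha'⟩ := sp_mono (k := k) (E := E) a (P.coeff a)
    obtain ⟨b', hb'⟩ := sp_mono (k := k) (E := E) b (P.coeff b)
    have e3 : sp k E P = MvPolynomial.monomial a' (P.coeff a) + MvPolynomial.monomial b' (P.coeff b) := by
      conv_lhs => rw [e2]
      rw [map_add, ha', hb']
    by_cases hab' : a' = b'
    · rw [hab', ← map_add] at e3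
      have h4 : P.coeff b = P.coeff a := by
        rcases ha with h | h <;> rcases hb with h' | h'
        · rw [h, h']
        · rw [h, h'] at e3; rw [e3] at h0; simp at h0
        · rw [h, h'] at e3; rw [e3] at h0; simp at h0
        · rw [h, h']
      refine ⟨b', P.coeff a, MvPolynomial.C 2, ha, ?_, Or.inr (Or.inl rfl)⟩
      rw [e3, h4, mul_comm, MvPolynomial.C_mul_monomial, two_mul]
    · refine ⟨0, P.coeff a, MvPolynomial.monomial a' 1 +
        MvPolynomial.monomial b' (P.coeff a * P.coeff b), ha, ?_, Or.inr (Or.inr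
        ⟨a', b', _, hab', ?_, rfl⟩)⟩
      · rw [e3, mul_add, MvPolynomial.monomial_mul, MvPolynomial.monomial_mul, zero_add, zero_add,
          mul_one, ← mul_assoc]
        congr 2
        rcases ha with h | h <;> rw [h] <;> simp
      · rcases ha with h | h <;> rcases hb with h' | h' <;> rw [h, h'] <;> simp

theorem step (B : ℝ) (hB : 1 ≤ B) : ∃ (c : ℝ) (m₀ : ℕ), 1 < c ∧ ∀ (k E : ℕ)
    (D : MvPolynomial (Fin (k + E)) ℤ), D ≠ 0 → MA (fun i : Fin (k + E) => k ≤ (i : ℕ)) D →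
      mM D ≤ B → sp k E D ≠ 0 → ∃ (a b : ℕ) (Q : MvPolynomial (Fin k) ℤ)
        (bs : Multiset (MvPolynomial (Fin k) ℤ)), (∀ P ∈ bs, IsBinom P) ∧
        sp k E D = MvPolynomial.C (2 ^ b) * Q * bs.prod ∧ len Q ≤ (2 ^ m₀) ^ a ∧
          c ^ a ≤ mM D := by
  classical
  obtain ⟨c, m₀, hc, hbig⟩ := big B hB
  refine ⟨c, m₀, hc, fun k E D => ?_⟩
  induction D using UniqueFactorizationMonoid.induction_on_prime with
  | h₁ => intro h; exact absurd rfl h
  | h₂ u hu =>
    intro _ _ _ _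
    obtain ⟨r, hr, hqr⟩ := MvPolynomial.isUnit_iff_eq_C_of_isReduced.1 hu
    refine ⟨0, 0, MvPolynomial.C r, 0, by simp, ?_, ?_, ?_⟩
    · rw [hqr, pow_zero, MvPolynomial.C_1, one_mul, Multiset.prod_zero, mul_one]
      exact (sp k E).commutes r
    · rw [pow_zero, MvPolynomial.C_apply]
      refine le_one_mono 0 r ?_
      rcases Int.isUnit_iff.1 hr with h | h <;> rw [h] <;> simp
    · rw [pow_zero]; exact one_le_mM _ hu.ne_zero
  | h₃ D p hD hp ih =>
    intro h0 hMA hB2 hsp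
    have hDp : MA (fun i : Fin (k + E) => k ≤ (i : ℕ)) p := div _ p D hMA h0
    have hDD : MA (fun i : Fin (k + E) => k ≤ (i : ℕ)) D := div _ D p (by rw [mul_comm]; exact hMA)
      (by rw [mul_comm]; exact h0)
    have hm := mM_mul p D hp.ne_zero hD
    have hp1 := one_le_mM p hp.ne_zero
    have hD1 := one_le_mM D hD
    rw [map_mul] at hsp
    have hspp : sp k E p ≠ 0 := left_ne_zero_of_mul hsp
    have hspD : sp k E D ≠ 0 := right_ne_zero_of_mul hsp
    have hpB : mM p ≤ B := by rw [hm] at hB2; nlinarith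
    have hDB : mM D ≤ B := by rw [hm] at hB2; nlinarith
    obtain ⟨a, b, Q, bs, hbs, h1, h2, h3⟩ := ih hD hDD hDB hspD
    -- the case of at most two terms
    have htwo : p.support.card ≤ 2 → ∃ (a b : ℕ) (Q : MvPolynomial (Fin k) ℤ)
        (bs : Multiset (MvPolynomial (Fin k) ℤ)), (∀ P ∈ bs, IsBinom P) ∧
        sp k E (p * D) = MvPolynomial.C (2 ^ b) * Q * bs.prod ∧ len Q ≤ (2 ^ m₀) ^ a ∧
          c ^ a ≤ mM (p * D) := by
      intro h4
      have h5 : c ^ a ≤ mM (p * D) := by rw [hm]; nlinarith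
      obtain ⟨s, α, R, hα, hR, hR2⟩ := sp_two p hDp.2.1 h4 hspp
      have h6 : len (MvPolynomial.monomial s α * Q) ≤ (2 ^ m₀) ^ a := by
        refine (len_mono_mul s α Q).trans ?_
        rw [abs_one hα, one_mul]
        exact h2
      rcases hR2 with h7 | h7 | h7
      · refine ⟨a, b, MvPolynomial.monomial s α * Q, bs, hbs, ?_, h6, h5⟩
        rw [map_mul, hR, h1, h7]; ring
      · refine ⟨a, b + 1, MvPolynomial.monomial s α * Q, bs, hbs, ?_, h6, h5⟩
        rw [map_mul, hR, h1, h7, pow_succ, MvPolynomial.C_mul]; ring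
      · refine ⟨a, b, MvPolynomial.monomial s α * Q, R ::ₘ bs, ?_, ?_, h6, h5⟩
        · intro P hP
          rcases Multiset.mem_cons.1 hP with h | h
          · rw [h]; exact h7
          · exact hbs P h
        · rw [map_mul, hR, h1, Multiset.prod_cons]; ring
    by_cases hY : ∃ i : Fin (k + E), k ≤ (i : ℕ) ∧ p.degreeOf i ≠ 0
    · obtain ⟨i, hi, hdi⟩ := hY
      have hdi1 : p.degreeOf i = 1 := by
        have : p.degreeOf i ≤ 1 := MvPolynomial.degreeOf_le_iff.2 fun s hs => hDp.1 s hs i hi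
        omega
      obtain ⟨hdim, hor⟩ := hbig (k + E) p i hp.irreducible hdi1 hpB
      rcases hor with h4 | h4
      · exact htwo (one (div _) _ p hp.irreducible hDp h4 le_rfl)
      · refine ⟨a + 1, b, sp k E p * Q, bs, hbs, ?_, ?_, ?_⟩
        · rw [map_mul, h1]; ring
        · have h5 := cnt _ p hDp
          have h6 : p.support.card ≤ 2 ^ m₀ :=
            h5.trans (Nat.pow_le_pow_right (by norm_num) hdim.le)
          have h7 := len_sp p hDp.2.1
          have h8 : len (sp k E p) ≤ 2 ^ m₀ := h7.trans (by exact_mod_cast h6)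
          have h9 := len_mul (sp k E p) Q
          have h10 := len_nonneg Q
          have h11 := len_nonneg (sp k E p)
          calc len (sp k E p * Q) ≤ len (sp k E p) * len Q := h9
            _ ≤ 2 ^ m₀ * (2 ^ m₀) ^ a := mul_le_mul h8 h2 h10 (by positivity)
            _ = (2 ^ m₀) ^ (a + 1) := by ring
        · rw [hm, pow_succ, mul_comm]
          exact mul_le_mul h4 h3 (by positivity) (by linarith)
    · apply htwo
      push Not at hY
      have h2 : ∀ s ∈ p.support, ∀ s' ∈ p.support, s = s' := by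
        intro s hs s' hs'
        refine hDp.2.2 s hs s' hs' fun i hi => ?_
        have e1 := MvPolynomial.monomial_le_degreeOf i hs
        have e2 := MvPolynomial.monomial_le_degreeOf i hs'
        have := hY i hi
        omega
      have : p.support.card ≤ 1 := Finset.card_le_one.2 h2
      omega

theorem main (B : ℝ) (hB : 1 ≤ B) : ∃ ℓ : ℕ, ∀ (k E : ℕ) (D : MvPolynomial (Fin (k + E)) ℤ),
    MA (fun i : Fin (k + E) => k ≤ (i : ℕ)) D → sp k E D ≠ 0 → mM D ≤ B → mM (sp k E D) ≤ B →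
      ∃ (Q : MvPolynomial (Fin k) ℤ) (bs : Multiset (MvPolynomial (Fin k) ℤ)),
        (∀ P ∈ bs, IsBinom P) ∧ sp k E D = Q * bs.prod ∧ len Q ≤ ℓ := by
  obtain ⟨c, m₀, hc, hstep⟩ := step B hB
  obtain ⟨a₀, ha₀⟩ := pow_unbounded_of_one_lt B hc
  obtain ⟨b₀, hb₀⟩ := pow_unbounded_of_one_lt B (one_lt_two)
  refine ⟨2 ^ b₀ * (2 ^ m₀) ^ a₀, fun k E D hMA h0 hD hF => ?_⟩
  have hD0 : D ≠ 0 := by rintro rfl; rw [map_zero] at h0; exact h0 rfl
  obtain ⟨a, b, Q, bs, hbs, h1, h2, h3⟩ := hstep k E D hD0 hMA hD h0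
  have ha : a ≤ a₀ := by
    by_contra hcon
    push Not at hcon
    have := pow_le_pow_right₀ hc.le hcon.le
    linarith
  obtain ⟨hb0, hb1⟩ := prod_binom bs hbs
  have hQ : Q ≠ 0 := by
    rintro rfl
    rw [mul_zero, zero_mul] at h1
    exact h0 h1
  have hQ1 := one_le_mM Q hQ
  have h2b : (2 : ℤ) ^ b ≠ 0 := by positivity
  have hC0 : (MvPolynomial.C ((2 : ℤ) ^ b) : MvPolynomial (Fin k) ℤ) ≠ 0 := by
    rw [Ne, ← map_zero MvPolynomial.C, MvPolynomial.C_inj]; exact h2b
  have hmF : mM (sp k E D) = 2 ^ b * mM Q := by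
    rw [h1, mM_mul _ _ (mul_ne_zero hC0 hQ) hb0, mM_mul _ _ hC0 hQ, J.mM_C h2b, hb1, mul_one]
    congr 1
    simp [Int.natAbs_pow]
  have hb : b ≤ b₀ := by
    by_contra hcon
    push Not at hcon
    have h4 := pow_le_pow_right₀ (one_le_two : (1 : ℝ) ≤ 2) hcon.le
    have h5 : (2 : ℝ) ^ b ≤ 2 ^ b * mM Q := le_mul_of_one_le_right (by positivity) hQ1
    linarith
  refine ⟨MvPolynomial.C (2 ^ b) * Q, bs, hbs, h1, ?_⟩
  have h4 := len_mul (MvPolynomial.C ((2 : ℤ) ^ b)) Q
  have h5 : len (MvPolynomial.C ((2 : ℤ) ^ b) : MvPolynomial (Fin k) ℤ) ≤ 2 ^ b := by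
    classical
    rw [MvPolynomial.C_apply, len_eq _ {0} MvPolynomial.support_monomial_subset,
      Finset.sum_singleton, MvPolynomial.coeff_monomial, if_pos rfl]
    rw [abs_of_nonneg (by positivity)]
  have h6 := len_nonneg Q
  calc len (MvPolynomial.C ((2 : ℤ) ^ b) * Q) ≤ len (MvPolynomial.C ((2 : ℤ) ^ b)) * len Q := h4
    _ ≤ 2 ^ b * (2 ^ m₀) ^ a := mul_le_mul h5 h2 h6 (by positivity)
    _ ≤ 2 ^ b₀ * (2 ^ m₀) ^ a₀ := by
      apply mul_le_mul (pow_le_pow_right₀ (by norm_num) hb) _ (by positivity) (by positivity)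
      exact pow_le_pow_right₀ (one_le_pow₀ (by norm_num)) ha
    _ = ((2 ^ b₀ * (2 ^ m₀) ^ a₀ : ℕ) : ℤ) := by push_cast; rfl

end Pool.Agent.H2.PG
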