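import Pool.Agent.H2.PG.Defs
-- import DIV
import Pool.Agent.H2.L.R_seed8.H887R3.LW.MV12
import Pool.Agent.H2.L.R_seed8.H261R2.CM.L1

set_option autoImplicit false

/-! Multiaffine irreducible polynomials of Mahler measure one have at most two terms. -/

namespace Pool.Agent.H2.PG

open MeasureTheory Pool.Agent.H261R2.CM

/-- the integral of `log |a + b e(w)|` -/
theorem int_lin (a b : ℂ) (hb : b ≠ 0) :
    ∫ w in Set.Icc (0 : ℝ) 1, Real.log ‖a + b * ez w‖ = Real.log (max ‖a‖ ‖b‖) := by
  have h := K8.log_mahler (Polynomial.C b * Polynomial.X + Polynomial.C a)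
  rw [Polynomial.mahlerMeasure_C_mul_X_add_C hb] at h
  rw [max_comm, h]
  refine integral_congr_ae (Filter.Eventually.of_forall fun w => ?_)
  simp only [Polynomial.eval_add, Polynomial.eval_mul, Polynomial.eval_C, Polynomial.eval_X]
  rw [add_comm]

theorem coeff_zsub {k : ℕ} (i : Fin k) (F : MvPolynomial (Fin k) ℤ) (s : Fin k →₀ ℕ) :
    (K8.zsub i F).coeff s = if s i = 0 then F.coeff s else 0 := by
  classical
  obtain ⟨G, hG⟩ := K8.X_dvd_sub_zsub i F
  have h1 : F = K8.zsub i F + MvPolynomial.X i * G := by rw [← hG]; ring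
  split_ifs with h
  · conv_rhs => rw [h1]
    rw [MvPolynomial.coeff_add, MvPolynomial.coeff_X_mul', if_neg]
    · ring
    · simp [h]
  · by_contra hne
    have h2 := MvPolynomial.monomial_le_degreeOf i (MvPolynomial.mem_support_iff.2 hne)
    rw [K8.degreeOf_zsub] at h2
    omega

theorem MA_zsub {k : ℕ} {Y : Fin k → Prop} {P : MvPolynomial (Fin k) ℤ} (h : MA Y P) (i : Fin k) :
    MA Y (K8.zsub i P) := by
  have hs : ∀ s ∈ (K8.zsub i P).support, s ∈ P.support ∧ (K8.zsub i P).coeff s = P.coeff s := by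
    intro s hs
    rw [MvPolynomial.mem_support_iff, coeff_zsub] at hs
    by_cases h0 : s i = 0
    · rw [if_pos h0] at hs
      exact ⟨MvPolynomial.mem_support_iff.2 hs, by rw [coeff_zsub, if_pos h0]⟩
    · rw [if_neg h0] at hs
      exact absurd rfl hs
  refine ⟨fun s h1 => h.1 s (hs s h1).1, fun s h1 => ?_, fun s h1 s' h2 => h.2.2 s (hs s h1).1 s'
    (hs s' h2).1⟩
  rw [(hs s h1).2]
  exact h.2.1 s (hs s h1).1

/-- the number of variables of `Y` in `P` -/
noncomputable def nv {k : ℕ} (Y : Fin k → Prop) (P : MvPolynomial (Fin k) ℤ) : ℕ := by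
  classical
  exact (Finset.univ.filter fun i => Y i ∧ P.degreeOf i ≠ 0).card

theorem nv_lt {k : ℕ} {Y : Fin k → Prop} {P Q : MvPolynomial (Fin k) ℤ} (hQ : Q ≠ 0) (i : Fin k)
    (hi : Y i) (hQi : Q.degreeOf i ≠ 0) (hd : P ∣ K8.zsub i Q) (h0 : K8.zsub i Q ≠ 0) :
    nv Y P < nv Y Q := by
  classical
  unfold nv
  apply Finset.card_lt_card
  have hle : ∀ j, P.degreeOf j ≤ (K8.zsub i Q).degreeOf j := by
    intro j
    obtain ⟨R, hR⟩ := hd
    have hP0 : P ≠ 0 := by rintro rfl; rw [zero_mul] at hR; exact h0 hR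
    have hR0 : R ≠ 0 := by rintro rfl; rw [mul_zero] at hR; exact h0 hR
    rw [hR, MvPolynomial.degreeOf_mul_eq hP0 hR0]
    exact Nat.le_add_right _ _
  have hle2 : ∀ j, (K8.zsub i Q).degreeOf j ≤ Q.degreeOf j := by
    intro j
    rw [MvPolynomial.degreeOf_le_iff]
    intro s hs
    rw [MvPolynomial.mem_support_iff, coeff_zsub] at hs
    by_cases h0 : s i = 0
    · rw [if_pos h0] at hs
      exact MvPolynomial.monomial_le_degreeOf j (MvPolynomial.mem_support_iff.2 hs)
    · rw [if_neg h0] at hs
      exact absurd rfl hs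
  rw [Finset.ssubset_iff_of_subset]
  · refine ⟨i, by simp [hi, hQi], ?_⟩
    have := hle i
    rw [K8.degreeOf_zsub] at this
    simp only [Finset.mem_filter, Finset.mem_univ, true_and, not_and, not_not]
    intro _
    omega
  · intro j hj
    simp only [Finset.mem_filter, Finset.mem_univ, true_and] at hj ⊢
    refine ⟨hj.1, ?_⟩
    have := hle j
    have := hle2 j
    omega

/-- a two term polynomial without monomial factor is associated to its reciprocal -/
theorem recip_binom {k : ℕ} {p : MvPolynomial (Fin k) ℤ} (hp : Irreducible p)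
    (hX : ∀ i, ¬ Associated p (MvPolynomial.X i)) (hc : ∀ s ∈ p.support, p.coeff s = 1 ∨ p.coeff s = -1)
    (h2 : p.support.card ≤ 2) : Associated (recip p) p := by
  classical
  have hp0 := hp.ne_zero
  have hne : p.support.Nonempty := MvPolynomial.support_nonempty.2 hp0
  have hcard : p.support.card = 2 := by
    rcases Nat.lt_or_ge p.support.card 2 with h | h
    · exfalso
      have h1 : p.support.card = 1 := by
        have := hne.card_pos
        omega
      obtain ⟨a, ha⟩ := Finset.card_eq_one.1 h1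
      have h3 : p = MvPolynomial.monomial a (p.coeff a) := by
        conv_lhs => rw [p.as_sum, ha, Finset.sum_singleton]
      have h4 : p ∣ MvPolynomial.monomial a 1 := by
        rcases hc a (by rw [ha]; simp) with h5 | h5
        · rw [h5] at h3
          rw [← h3]
        · rw [h5] at h3
          refine ⟨-1, ?_⟩
          rw [h3]
          simp
      obtain ⟨i, hi⟩ := J.associated_X_of_dvd_monomial hp h4
      exact hX i hi
    · omega
  obtain ⟨a, b, hab, hsup⟩ := Finset.card_eq_two.1 hcard
  have ha : a ∈ p.support := by rw [hsup]; simp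
  have hb : b ∈ p.support := by rw [hsup]; simp
  have hmin : ∀ i, a i = 0 ∨ b i = 0 := by
    intro i
    by_contra hcon
    push Not at hcon
    apply hX i
    have hd : MvPolynomial.X i ∣ p := by
      rw [MvPolynomial.X_dvd_iff_modMonomial_eq_zero]
      ext s
      rw [MvPolynomial.coeff_zero]
      by_cases hs : Finsupp.single i 1 ≤ s
      · exact MvPolynomial.coeff_modMonomial_of_le _ hs
      · rw [MvPolynomial.coeff_modMonomial_of_not_le _ hs]
        by_contra hne
        have h5 := MvPolynomial.mem_support_iff.2 hne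
        rw [hsup] at h5
        simp only [Finset.mem_insert, Finset.mem_singleton] at h5
        apply hs
        rw [Finsupp.single_le_iff]
        rcases h5 with rfl | rfl
        · exact Nat.one_le_iff_ne_zero.2 hcon.1
        · exact Nat.one_le_iff_ne_zero.2 hcon.2
    obtain ⟨q, hq⟩ := hd
    rcases hp.isUnit_or_isUnit hq with h | h
    · exfalso
      have h1 := Pool.Agent.H887R3.LW.degreeOf_unit h i
      rw [MvPolynomial.degreeOf_X, if_pos rfl] at h1
      omega
    · rw [hq]
      exact associated_mul_unit_left _ _ h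
  have hdg : J.dg p = a + b := by
    ext i
    simp only [J.dg, Finsupp.equivFunOnFinite_symm_apply_apply, Finsupp.coe_add, Pi.add_apply]
    apply le_antisymm
    · rw [MvPolynomial.degreeOf_le_iff]
      intro s hs
      rw [hsup] at hs
      simp only [Finset.mem_insert, Finset.mem_singleton] at hs
      rcases hs with rfl | rfl <;> omega
    · have h1 := MvPolynomial.monomial_le_degreeOf i ha
      have h2 := MvPolynomial.monomial_le_degreeOf i hb
      have := hmin i
      omega
  have e1 : recip p = MvPolynomial.monomial b (p.coeff a) + MvPolynomial.monomial a (p.coeff b) := by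
    rw [J.recip_eq_rv, J.rv_eq_sum (J.dg p) p {a, b} hsup.le, Finset.sum_pair hab, hdg]
    rw [add_tsub_cancel_left, add_tsub_cancel_right]
  have e2 : p = MvPolynomial.monomial a (p.coeff a) + MvPolynomial.monomial b (p.coeff b) := by
    conv_lhs => rw [p.as_sum, hsup, Finset.sum_pair hab]
  have e3 : p.coeff a = p.coeff b ∨ p.coeff b = - p.coeff a := by
    rcases hc a ha with h | h <;> rcases hc b hb with h' | h' <;> rw [h, h'] <;> simp
  rcases e3 with h | h
  · have : recip p = p := by
      conv_rhs => rw [e2]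
      rw [e1, h, add_comm]
    rw [this]
  · have : recip p = -p := by
      conv_rhs => rw [e2]
      rw [e1, h]
      simp only [map_neg]
      ring
    rw [this]
    exact Associated.neg_left (Associated.refl p)

/-- the key step -/
theorem key {k : ℕ} {Y : Fin k → Prop} {f : MvPolynomial (Fin k) ℤ} (hf : Irreducible f)
    (hMA : MA Y f) (i : Fin k) (hi : f.degreeOf i = 1) (h1 : mM f = 1)
    (IH : K8.zsub i f ≠ 0 → ∀ p, Irreducible p → p ∣ K8.zsub i f → mM p = 1 →
      (∀ s ∈ p.support, p.coeff s = 1 ∨ p.coeff s = -1) ∧ p.support.card ≤ 2) :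
    f.support.card ≤ 2 := by
  classical
  obtain ⟨g, hg⟩ := K8.X_dvd_sub_zsub i f
  set f₀ := K8.zsub i f with hf₀
  have hfe : f = f₀ + MvPolynomial.X i * g := by rw [← hg]; ring
  have hd0 : f₀.degreeOf i = 0 := K8.degreeOf_zsub i f
  by_cases hX : MvPolynomial.X i ∣ f
  · obtain ⟨q, hq⟩ := hX
    rcases hf.isUnit_or_isUnit hq with h | h
    · exfalso
      have h1 := Pool.Agent.H887R3.LW.degreeOf_unit h i
      rw [MvPolynomial.degreeOf_X, if_pos rfl] at h1
      omega
    · have h2 : q = MvPolynomial.C 1 ∨ q = MvPolynomial.C (-1) := by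
        have := MvPolynomial.isUnit_iff_eq_C_of_isReduced.1 h
        obtain ⟨r, hr, hqr⟩ := this
        rcases Int.isUnit_iff.1 hr with h3 | h3
        · left; rw [hqr, h3]
        · right; rw [hqr, h3]
      have h3 : f.support.card ≤ 1 := by
        have h4 : f.support ⊆ {Finsupp.single i 1} := by
          rw [hq]
          rcases h2 with h2 | h2 <;> rw [h2, mul_comm, MvPolynomial.C_mul_X_eq_monomial] <;>
            exact MvPolynomial.support_monomial_subset
        exact (Finset.card_le_card h4).trans (by simp)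
      omega
  have hf₀0 : f₀ ≠ 0 := K8.zsub_ne_zero hX
  have hg0 : g ≠ 0 := by
    rintro rfl
    rw [mul_zero, add_zero] at hfe
    rw [hfe, hd0] at hi
    omega
  have hgd : g.degreeOf i = 0 := by
    have h2 : (MvPolynomial.X i * g).degreeOf i ≤ 1 := by
      rw [← hg]
      refine (MvPolynomial.degreeOf_sub_le i f f₀).trans ?_
      rw [hi, hd0]; simp
    have h3 := MvPolynomial.degreeOf_mul_eq (n := i) (MvPolynomial.X_ne_zero i) hg0
    rw [MvPolynomial.degreeOf_X, if_pos rfl] at h3
    omega
  have hconst : ∀ (F : MvPolynomial (Fin k) ℤ), F.degreeOf i = 0 → ∀ (x : Fin k → ℝ) (w : ℝ),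
      tv F (Function.update x i w) = tv F x := by
    intro F hF x w
    have h2 := K8.eval_slice x i F w
    have h3 := K8.eval_slice x i F (x i)
    rw [Function.update_eq_self] at h3
    have h4 : (K8.slice x i F).natDegree = 0 := by
      have := K8.natDegree_slice x i F
      omega
    rw [Polynomial.eq_C_of_natDegree_eq_zero h4] at h2 h3
    rw [Polynomial.eval_C] at h2 h3
    rw [← h2, ← h3]
  have hval : ∀ (x : Fin k → ℝ) (w : ℝ),
      tv f (Function.update x i w) = tv f₀ x + tv g x * ez w := by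
    intro x w
    rw [hfe, J.tv_add, J.tv_mul, J.tv_X, hconst f₀ hd0, hconst g hgd]
    have : J.zz (Function.update x i w) i = ez w := by
      unfold J.zz ez
      rw [Function.update_self]
    rw [this]
    ring
  have hint0 := F_integrable hf₀0
  have hintg := F_integrable hg0
  have hl0 : 0 ≤ ∫ t in Set.Icc (0 : Fin k → ℝ) 1, Real.log ‖tv f₀ t‖ := by
    rw [← log_mM]; exact Real.log_nonneg (one_le_mM _ hf₀0)
  have hlg : 0 ≤ ∫ t in Set.Icc (0 : Fin k → ℝ) 1, Real.log ‖tv g t‖ := by
    rw [← log_mM]; exact Real.log_nonneg (one_le_mM _ hg0)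
  have hmax : IntegrableOn (fun t => Real.log (max ‖tv f₀ t‖ ‖tv g t‖)) (Set.Icc (0 : Fin k → ℝ) 1) ∧
      ∫ t in Set.Icc (0 : Fin k → ℝ) 1, Real.log (max ‖tv f₀ t‖ ‖tv g t‖) = 0 := by
    obtain ⟨k', rfl⟩ : ∃ k', k = k' + 1 := ⟨k - 1, by have := i.2; omega⟩
    obtain ⟨h2, h3⟩ := K8.cube_slice i (fun x => Real.log ‖tv f x‖) (F_integrable hf.ne_zero)
    have h4 : (fun x : Fin (k' + 1) → ℝ => ∫ w in Set.Icc (0 : ℝ) 1,
        Real.log ‖tv f (Function.update x i w)‖) =ᵐ[volume.restrict (Set.Icc 0 1)]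
        fun t => Real.log (max ‖tv f₀ t‖ ‖tv g t‖) := by
      filter_upwards [F_zero_null hg0] with x hx
      rw [← int_lin _ _ hx]
      refine integral_congr_ae (Filter.Eventually.of_forall fun w => ?_)
      simp only
      rw [hval]
    refine ⟨(integrable_congr h4).1 h2, ?_⟩
    rw [← integral_congr_ae h4, h3, ← log_mM, h1, Real.log_one]
  have hle0 : ∀ᵐ t ∂(volume.restrict (Set.Icc (0 : Fin k → ℝ) 1)),
      Real.log ‖tv f₀ t‖ ≤ Real.log (max ‖tv f₀ t‖ ‖tv g t‖) := by
    filter_upwards [F_zero_null hf₀0] with t ht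
    exact Real.log_le_log (norm_pos_iff.2 ht) (le_max_left _ _)
  have hleg : ∀ᵐ t ∂(volume.restrict (Set.Icc (0 : Fin k → ℝ) 1)),
      Real.log ‖tv g t‖ ≤ Real.log (max ‖tv f₀ t‖ ‖tv g t‖) := by
    filter_upwards [F_zero_null hg0] with t ht
    exact Real.log_le_log (norm_pos_iff.2 ht) (le_max_right _ _)
  have hi0 : ∫ t in Set.Icc (0 : Fin k → ℝ) 1, Real.log ‖tv f₀ t‖ = 0 :=
    le_antisymm ((integral_mono_ae hint0 hmax.1 hle0).trans hmax.2.le) hl0
  have hig : ∫ t in Set.Icc (0 : Fin k → ℝ) 1, Real.log ‖tv g t‖ = 0 :=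
    le_antisymm ((integral_mono_ae hintg hmax.1 hleg).trans hmax.2.le) hlg
  have hae : ∀ᵐ t ∂(volume.restrict (Set.Icc (0 : Fin k → ℝ) 1)), ‖tv f₀ t‖ = ‖tv g t‖ := by
    have e1 := (integral_eq_iff_of_ae_le hint0 hmax.1 hle0).1 (by rw [hi0, hmax.2])
    have e2 := (integral_eq_iff_of_ae_le hintg hmax.1 hleg).1 (by rw [hig, hmax.2])
    filter_upwards [e1, e2, F_zero_null hf₀0, F_zero_null hg0] with t h2 h3 h4 h5
    have h6 : Real.log ‖tv f₀ t‖ = Real.log ‖tv g t‖ := by rw [h2, h3]
    exact Real.log_injOn_pos (Set.mem_Ioi.2 (norm_pos_iff.2 h4)) (Set.mem_Ioi.2 (norm_pos_iff.2 h5)) h6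
  have hstar := Pool.Agent.H887R3.LW.star_of_ae f₀ g hae
  set d := J.dg f₀ + J.dg g with hd
  have hmf₀ : mM f₀ = 1 := by
    have : Real.log (mM f₀) = 0 := by rw [log_mM, hi0]
    exact Real.eq_one_of_pos_of_log_eq_zero (lt_of_lt_of_le one_pos (one_le_mM _ hf₀0)) this
  have hgle : J.dg g ≤ d := le_add_self
  -- all prime factors of f₀ are variables
  have hfac : ∀ p, Irreducible p → p ∣ f₀ → ∃ j, Associated p (MvPolynomial.X j) := by
    intro p hp hpd
    by_contra hcon
    push Not at hcon
    have hmp : mM p = 1 := by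
      obtain ⟨q, hq⟩ := hpd
      have hq0 : q ≠ 0 := by rintro rfl; rw [mul_zero] at hq; exact hf₀0 hq
      have h2 := mM_mul p q hp.ne_zero hq0
      rw [← hq, hmf₀] at h2
      have h3 := one_le_mM p hp.ne_zero
      have h4 := one_le_mM q hq0
      nlinarith
    obtain ⟨hc, hcard⟩ := IH hf₀0 p hp hpd hmp
    have hrec := recip_binom hp hcon hc hcard
    have hnotg : ¬ p ∣ g := by
      intro h2
      have h3 : p ∣ f := by
        rw [hfe]
        exact dvd_add hpd (Dvd.dvd.mul_left h2 _)
      obtain ⟨q, hq⟩ := h3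
      rcases hf.isUnit_or_isUnit hq with h | h
      · exact hp.not_isUnit h
      · have h4 : p.degreeOf i = 0 := by
          obtain ⟨r, hr⟩ := hpd
          have hr0 : r ≠ 0 := by rintro rfl; rw [mul_zero] at hr; exact hf₀0 hr
          have h5 := MvPolynomial.degreeOf_mul_eq (n := i) hp.ne_zero hr0
          rw [← hr, hd0] at h5
          omega
        have hq0 : q ≠ 0 := h.ne_zero
        have h5 := MvPolynomial.degreeOf_mul_eq (n := i) hp.ne_zero hq0
        rw [← hq, hi, h4, Pool.Agent.H887R3.LW.degreeOf_unit h i] at h5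
        omega
    have h2 : p ∣ g * J.rv d g := by
      rw [← hstar]
      exact Dvd.dvd.mul_right hpd _
    rcases hp.prime.dvd_or_dvd h2 with h3 | h3
    · exact hnotg h3
    · rw [J.rv_eq_of_le hgle] at h3
      rcases hp.prime.dvd_or_dvd h3 with h4 | h4
      · obtain ⟨j, hj⟩ := J.associated_X_of_dvd_monomial hp h4
        exact hcon j hj
      · have h5 := J.recip_dvd (J.recip_ne_zero hg0) h4
        exact hnotg ((hrec.symm.dvd.trans h5).trans (J.recip_recip_dvd g))
  -- so `f₀` is a monomial
  have hmono : ∀ F : MvPolynomial (Fin k) ℤ, F ≠ 0 → (∀ p, Irreducible p → p ∣ F →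
      ∃ j, Associated p (MvPolynomial.X j)) → ∃ a, F ∣ MvPolynomial.monomial a 1 := by
    intro F
    induction F using UniqueFactorizationMonoid.induction_on_prime with
    | h₁ => intro h; exact absurd rfl h
    | h₂ u hu => intro _ _; exact ⟨0, hu.dvd⟩
    | h₃ a p ha hp ih =>
      intro h2 h3
      obtain ⟨b, hb⟩ := ih ha fun q hq hqd => h3 q hq (Dvd.dvd.mul_left hqd _)
      obtain ⟨j, hj⟩ := h3 p hp.irreducible (Dvd.intro _ rfl)
      refine ⟨Finsupp.single j 1 + b, ?_⟩
      have : (MvPolynomial.monomial (Finsupp.single j 1 + b) 1 : MvPolynomial (Fin k) ℤ) =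
          MvPolynomial.X j * MvPolynomial.monomial b 1 := by
        rw [MvPolynomial.X, MvPolynomial.monomial_mul, one_mul]
      rw [this]
      exact mul_dvd_mul hj.dvd hb
  obtain ⟨a, ha⟩ := hmono f₀ hf₀0 hfac
  obtain ⟨a', b', -, hb', hf₀m⟩ := (MvPolynomial.dvd_monomial_iff_exists (one_ne_zero' ℤ)).1 ha
  have hcard0 : f₀.support.card ≤ 1 := by
    rw [hf₀m]
    exact (Finset.card_le_card MvPolynomial.support_monomial_subset).trans (by simp)
  have hcardg : g.support.card ≤ 1 := by
    have h2 : g ∣ MvPolynomial.monomial (a' + (d - a')) (b' * b') := by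
      have h3 : f₀ * J.rv d f₀ = MvPolynomial.monomial (a' + (d - a')) (b' * b') := by
        rw [hf₀m, J.rv_monomial, MvPolynomial.monomial_mul]
      rw [← h3, hstar]
      exact Dvd.intro _ rfl
    have hb0 : b' * b' ≠ 0 := by
      have : b' ≠ 0 := by
        rintro rfl
        rw [map_zero] at hf₀m
        exact hf₀0 hf₀m
      exact mul_ne_zero this this
    obtain ⟨a₂, b₂, -, -, hgm⟩ := (MvPolynomial.dvd_monomial_iff_exists hb0).1 h2
    rw [hgm]
    exact (Finset.card_le_card MvPolynomial.support_monomial_subset).trans (by simp)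
  have h2 : f.support ⊆ f₀.support ∪ (MvPolynomial.X i * g).support := by
    conv_lhs => rw [hfe]
    exact MvPolynomial.support_add
  have h3 : (MvPolynomial.X i * g).support.card ≤ 1 := by
    rw [MvPolynomial.support_X_mul, Finset.card_map]
    exact hcardg
  have := Finset.card_le_card h2
  have := Finset.card_union_le f₀.support (MvPolynomial.X i * g).support
  omega

theorem one {k : ℕ} {Y : Fin k → Prop} (hdiv : ∀ P Q : MvPolynomial (Fin k) ℤ, MA Y (P * Q) →
    P * Q ≠ 0 → MA Y P) : ∀ (n : ℕ) (f : MvPolynomial (Fin k) ℤ), Irreducible f → MA Y f →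
    mM f = 1 → nv Y f ≤ n → f.support.card ≤ 2 := by
  classical
  intro n
  induction n using Nat.strong_induction_on with
  | _ n ih =>
    intro f hf hMA h1 hn
    by_cases h : ∃ i, Y i ∧ f.degreeOf i ≠ 0
    · obtain ⟨i, hi, hdi⟩ := h
      have hdi1 : f.degreeOf i = 1 := by
        have : f.degreeOf i ≤ 1 := MvPolynomial.degreeOf_le_iff.2 fun s hs => hMA.1 s hs i hi
        omega
      refine key hf hMA i hdi1 h1 ?_
      intro h0 p hp hpd hmp
      have hMA0 := MA_zsub hMA i
      obtain ⟨q, hq⟩ := hpd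
      have hMAp : MA Y p := hdiv p q (by rw [← hq]; exact hMA0) (by rw [← hq]; exact h0)
      have hlt : nv Y p < nv Y f := nv_lt hf.ne_zero i hi hdi ⟨q, hq⟩ h0
      exact ⟨hMAp.2.1, ih (nv Y p) (by omega) p hp hMAp hmp le_rfl⟩
    · push Not at h
      have h2 : ∀ s ∈ f.support, ∀ s' ∈ f.support, s = s' := by
        intro s hs s' hs'
        refine hMA.2.2 s hs s' hs' fun i hi => ?_
        have e1 := MvPolynomial.monomial_le_degreeOf i hs
        have e2 := MvPolynomial.monomial_le_degreeOf i hs'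
        have := h i hi
        omega
      have : f.support.card ≤ 1 := Finset.card_le_one.2 h2
      omega

end Pool.Agent.H2.PG
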