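import Pool.Agent.H2.PG.Defs

set_option autoImplicit false

/-!
# PG-RIEM: uniform convergence of the Riemann sums of a continuous periodic function
-/

namespace Pool.Agent.H2.PG.RiemA

open MeasureTheory

variable {k : ℕ}

theorem per_one (f : (Fin k → ℝ) → ℝ)
    (hf : ∀ (x : Fin k → ℝ) (i : Fin k), f (Function.update x i (x i + 1)) = f x)
    (x : Fin k → ℝ) (i : Fin k) (z : ℤ) : f (Function.update x i (x i + z)) = f x := by
  induction z using Int.induction_on with
  | zero => simp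
  | succ z ih =>
    have h := hf (Function.update x i (x i + ((z : ℤ) : ℝ))) i
    rw [Function.update_self, Function.update_idem, ih] at h
    rw [← h]
    congr 2
    push_cast
    ring
  | pred z ih =>
    have h := hf (Function.update x i (x i + ((-(z : ℤ) - 1 : ℤ) : ℝ))) i
    rw [Function.update_self, Function.update_idem] at h
    rw [← h, ← ih]
    congr 2
    push_cast
    ring

theorem per_int (f : (Fin k → ℝ) → ℝ)
    (hf : ∀ (x : Fin k → ℝ) (i : Fin k), f (Function.update x i (x i + 1)) = f x)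
    (x : Fin k → ℝ) (z : Fin k → ℤ) : f (fun i => x i + z i) = f x := by
  classical
  have key : ∀ s : Finset (Fin k), f (fun i => x i + if i ∈ s then (z i : ℝ) else 0) = f x := by
    intro s
    induction s using Finset.induction_on with
    | empty => simp
    | insert a s ha ih =>
      rw [← ih, ← per_one f hf (fun i => x i + if i ∈ s then (z i : ℝ) else 0) a (z a)]
      congr 1
      funext j
      by_cases hj : j = a
      · subst hj
        simp [ha]
      · rw [Function.update_of_ne hj]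
        simp [hj]
  have h := key Finset.univ
  simpa using h

/-- uniform continuity -/
theorem unif (f : (Fin k → ℝ) → ℝ) (hc : Continuous f)
    (hf : ∀ (x : Fin k → ℝ) (i : Fin k), f (Function.update x i (x i + 1)) = f x)
    (ε : ℝ) (hε : 0 < ε) :
    ∃ δ : ℝ, 0 < δ ∧ ∀ x y : Fin k → ℝ, dist x y < δ → |f x - f y| ≤ ε := by
  have hK : IsCompact (Set.Icc (fun _ => (-1 : ℝ)) (fun _ => (2 : ℝ)) : Set (Fin k → ℝ)) :=
    isCompact_Icc
  have hu := Metric.uniformContinuousOn_iff.1 (hK.uniformContinuousOn_of_continuous hc.continuousOn)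
  obtain ⟨δ, hδ, h⟩ := hu ε hε
  refine ⟨min δ 1, lt_min hδ one_pos, fun x y hxy => ?_⟩
  have h1 : dist x y < δ := lt_of_lt_of_le hxy (min_le_left _ _)
  have h2 : dist x y < 1 := lt_of_lt_of_le hxy (min_le_right _ _)
  rw [← per_int f hf x (fun i => -⌊x i⌋), ← per_int f hf y (fun i => -⌊x i⌋)]
  have hx : (fun i => x i + ((-⌊x i⌋ : ℤ) : ℝ)) ∈
      (Set.Icc (fun _ => (-1 : ℝ)) (fun _ => (2 : ℝ)) : Set (Fin k → ℝ)) := by
    constructor
    · intro i
      have := Int.floor_le (x i)
      push_cast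
      linarith
    · intro i
      have := Int.lt_floor_add_one (x i)
      push_cast
      linarith
  have hy : (fun i => y i + ((-⌊x i⌋ : ℤ) : ℝ)) ∈
      (Set.Icc (fun _ => (-1 : ℝ)) (fun _ => (2 : ℝ)) : Set (Fin k → ℝ)) := by
    have h3 : ∀ i, |x i - y i| < 1 := fun i => by
      have := (dist_le_pi_dist x y i).trans_lt h2
      rwa [Real.dist_eq] at this
    constructor
    · intro i
      have := Int.floor_le (x i)
      have := abs_lt.1 (h3 i)
      push_cast
      linarith
    · intro i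
      have := Int.lt_floor_add_one (x i)
      have := abs_lt.1 (h3 i)
      push_cast
      linarith
  have h4 := h _ hx _ hy (by
    refine lt_of_le_of_lt ?_ h1
    refine (dist_pi_le_iff dist_nonneg).2 fun i => ?_
    rw [Real.dist_eq]
    have : x i + ((-⌊x i⌋ : ℤ) : ℝ) - (y i + ((-⌊x i⌋ : ℤ) : ℝ)) = x i - y i := by ring
    rw [this, ← Real.dist_eq]
    exact dist_le_pi_dist x y i)
  rw [Real.dist_eq] at h4
  exact h4.le

/-- the cells -/
def cell (N : ℕ) (u : Fin k → Fin N) : Set (Fin k → ℝ) :=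
  Set.pi Set.univ fun i => Set.Ico (((u i : ℕ) : ℝ) / N) (((u i : ℕ) : ℝ) / N + 1 / N)

theorem cell_union (N : ℕ) (hN : 1 ≤ N) :
    (⋃ u : Fin k → Fin N, cell N u) = Set.pi Set.univ fun _ : Fin k => Set.Ico (0 : ℝ) 1 := by
  have hN0 : (0 : ℝ) < N := by exact_mod_cast hN
  ext x
  rw [Set.mem_iUnion]
  constructor
  · rintro ⟨u, hu⟩
    rw [Set.mem_univ_pi]
    intro i
    have h1 := (Set.mem_univ_pi.1 hu) i
    refine ⟨le_trans (by positivity) h1.1, lt_of_lt_of_le h1.2 ?_⟩
    rw [← add_div, div_le_one hN0]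
    exact_mod_cast (u i).2
  · intro hx
    rw [Set.mem_univ_pi] at hx
    have hlt : ∀ i, ⌊(N : ℝ) * x i⌋₊ < N := by
      intro i
      rw [Nat.floor_lt (mul_nonneg hN0.le (hx i).1)]
      nlinarith [(hx i).2]
    refine ⟨fun i => ⟨⌊(N : ℝ) * x i⌋₊, hlt i⟩, ?_⟩
    unfold cell
    rw [Set.mem_univ_pi]
    intro i
    have h1 := Nat.floor_le (mul_nonneg hN0.le (hx i).1)
    have h2 := Nat.lt_floor_add_one ((N : ℝ) * x i)
    constructor
    · rw [div_le_iff₀ hN0]
      linarith
    · rw [← add_div, lt_div_iff₀ hN0]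
      linarith

theorem cell_disj (N : ℕ) (hN : 1 ≤ N) :
    Pairwise (Function.onFun Disjoint (cell N : (Fin k → Fin N) → Set (Fin k → ℝ))) := by
  have hN0 : (0 : ℝ) < N := by exact_mod_cast hN
  intro u v huv
  rw [Function.onFun, Set.disjoint_left]
  intro x hu hv
  apply huv
  funext i
  have h1 := (Set.mem_univ_pi.1 hu) i
  have h2 := (Set.mem_univ_pi.1 hv) i
  have a1 : ((u i : ℕ) : ℝ) < (v i : ℕ) + 1 := by
    have := lt_of_le_of_lt h1.1 h2.2
    rw [← add_div, div_lt_div_iff_of_pos_right hN0] at this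
    exact this
  have a2 : ((v i : ℕ) : ℝ) < (u i : ℕ) + 1 := by
    have := lt_of_le_of_lt h2.1 h1.2
    rw [← add_div, div_lt_div_iff_of_pos_right hN0] at this
    exact this
  have b1 : (u i : ℕ) < (v i : ℕ) + 1 := by exact_mod_cast a1
  have b2 : (v i : ℕ) < (u i : ℕ) + 1 := by exact_mod_cast a2
  exact Fin.ext (by omega)

theorem riem_of_shift
    (hshift : ∀ (f : (Fin k → ℝ) → ℝ),
      (∀ (x : Fin k → ℝ) (i : Fin k), f (Function.update x i (x i + 1)) = f x) →
      ∀ (v : Fin k → ℝ), ∫ t in Set.Icc (0 : Fin k → ℝ) 1, f (t + v) =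
        ∫ t in Set.Icc (0 : Fin k → ℝ) 1, f t)
    (f : (Fin k → ℝ) → ℝ) (hc : Continuous f)
    (hf : ∀ (x : Fin k → ℝ) (i : Fin k), f (Function.update x i (x i + 1)) = f x)
    (ε : ℝ) (hε : 0 < ε) :
    ∃ N₀ : ℕ, ∀ N : ℕ, N₀ ≤ N → 1 ≤ N → ∀ t : Fin k → ℝ,
      |∑ u : Fin k → Fin N, f (fun l => t l + ((u l : ℕ) : ℝ) / (N : ℝ)) -
        (N : ℝ) ^ k * ∫ x in Set.Icc (0 : Fin k → ℝ) 1, f x| ≤ ε * (N : ℝ) ^ k := by
  obtain ⟨δ, hδ, hu⟩ := unif f hc hf ε hε
  obtain ⟨N₀, hN₀⟩ := exists_nat_gt (1 / δ)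
  refine ⟨N₀, fun N hN hN1 t => ?_⟩
  have hN0 : (0 : ℝ) < N := by exact_mod_cast hN1
  have hNδ : 1 / (N : ℝ) < δ := by
    rw [div_lt_iff₀ hN0]
    have h1 : 1 / δ < N := lt_of_lt_of_le hN₀ (by exact_mod_cast hN)
    rw [div_lt_iff₀ hδ] at h1
    linarith
  -- the integral
  have hF : Continuous fun x : Fin k → ℝ => f (x + t) := hc.comp (continuous_id.add continuous_const)
  have hint : ∫ x in Set.Icc (0 : Fin k → ℝ) 1, f x =
      ∑ u : Fin k → Fin N, ∫ x in cell N u, f (x + t) := by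
    rw [← hshift f hf t]
    have e1 : ∫ x in Set.Icc (0 : Fin k → ℝ) 1, f (x + t) =
        ∫ x in (Set.pi Set.univ fun _ : Fin k => Set.Ico (0 : ℝ) 1), f (x + t) :=
      (setIntegral_congr_set Measure.univ_pi_Ico_ae_eq_Icc).symm
    rw [e1, ← cell_union N hN1]
    refine integral_iUnion_fintype (fun u => ?_) (cell_disj N hN1) (fun u => ?_)
    · exact MeasurableSet.univ_pi fun i => measurableSet_Ico
    · refine (hF.continuousOn.integrableOn_compact
        (isCompact_Icc (a := (0 : Fin k → ℝ)) (b := 1))).mono_set ?_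
      intro x hx
      have h1 : x ∈ ⋃ u : Fin k → Fin N, cell N u := Set.mem_iUnion.2 ⟨u, hx⟩
      rw [cell_union N hN1, Set.mem_univ_pi] at h1
      exact ⟨fun i => (h1 i).1, fun i => (h1 i).2.le⟩
  have hvol : ∀ u : Fin k → Fin N, volume (cell N u) = ENNReal.ofReal ((1 / (N : ℝ)) ^ k) := by
    intro u
    unfold cell
    rw [Real.volume_pi_Ico]
    simp only [add_sub_cancel_left]
    rw [Finset.prod_const, Finset.card_univ, Fintype.card_fin,
      ENNReal.ofReal_pow (by positivity)]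
  have hterm : ∀ u : Fin k → Fin N,
      |f (fun l => t l + ((u l : ℕ) : ℝ) / (N : ℝ)) - (N : ℝ) ^ k * ∫ x in cell N u, f (x + t)| ≤
        ε := by
    intro u
    set c := f (fun l => t l + ((u l : ℕ) : ℝ) / (N : ℝ)) with hcdef
    have hfin : volume (cell N u) < ⊤ := by
      rw [hvol]
      exact ENNReal.ofReal_lt_top
    have hreal : volume.real (cell N u) = (1 / (N : ℝ)) ^ k := by
      rw [measureReal_def, hvol, ENNReal.toReal_ofReal (by positivity)]
    have h1 : ∫ x in cell N u, (c - f (x + t)) = c * (1 / (N : ℝ)) ^ k - ∫ x in cell N u, f (x + t) := by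
      rw [integral_sub]
      · rw [setIntegral_const, hreal, smul_eq_mul, mul_comm]
      · exact integrableOn_const hfin.ne
      · refine (hF.continuousOn.integrableOn_compact
          (isCompact_Icc (a := (0 : Fin k → ℝ)) (b := 1))).mono_set ?_
        intro x hx
        have h1 : x ∈ ⋃ u : Fin k → Fin N, cell N u := Set.mem_iUnion.2 ⟨u, hx⟩
        rw [cell_union N hN1, Set.mem_univ_pi] at h1
        exact ⟨fun i => (h1 i).1, fun i => (h1 i).2.le⟩
    have h2 : ‖∫ x in cell N u, (c - f (x + t))‖ ≤ ε * volume.real (cell N u) := by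
      refine norm_setIntegral_le_of_norm_le_const hfin fun x hx => ?_
      rw [Real.norm_eq_abs]
      refine hu _ _ ?_
      rw [dist_pi_lt_iff hδ]
      intro i
      have h3 := (Set.mem_univ_pi.1 hx) i
      rw [Real.dist_eq, Pi.add_apply, abs_lt]
      have h4 := h3.1
      have h5 := h3.2
      constructor
      · linarith
      · linarith
    rw [h1, hreal, Real.norm_eq_abs] at h2
    have hNk : (0 : ℝ) < (N : ℝ) ^ k := by positivity
    have h6 : c - (N : ℝ) ^ k * ∫ x in cell N u, f (x + t) =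
        (N : ℝ) ^ k * (c * (1 / (N : ℝ)) ^ k - ∫ x in cell N u, f (x + t)) := by
      rw [mul_sub, one_div, inv_pow]
      field_simp
    rw [h6, abs_mul, abs_of_pos hNk]
    calc (N : ℝ) ^ k * |c * (1 / (N : ℝ)) ^ k - ∫ x in cell N u, f (x + t)|
        ≤ (N : ℝ) ^ k * (ε * (1 / (N : ℝ)) ^ k) := by gcongr
      _ = ε := by
          rw [one_div, inv_pow]
          field_simp
  rw [hint, Finset.mul_sum, ← Finset.sum_sub_distrib]
  refine (Finset.abs_sum_le_sum_abs _ _).trans ?_
  refine (Finset.sum_le_sum fun u _ => hterm u).trans ?_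
  rw [Finset.sum_const, Finset.card_univ, Fintype.card_pi, Finset.prod_const, Fintype.card_fin,
    Finset.card_univ, Fintype.card_fin, nsmul_eq_mul, mul_comm]
  push_cast
  exact le_rfl

end Pool.Agent.H2.PG.RiemA
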